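import Pool.Agent.H637R2.Leo.Split
set_option autoImplicit false

/-!
# Homomorphisms from finitely generated rings to finite fields
-/

namespace Pool.Agent.R412.UF

open Polynomial NumberField

/-- Extension of a homomorphism to fractions with good denominators. -/
theorem ext_hom {R D K k : Type} [CommRing R] [CommRing D] [Field K] [Field k] (ι : D →+* K)
    (hι : Function.Injective ι) (ψ : D →+* k) (φ : R →+* K)
    (h : ∀ x : R, ∃ a b : D, ψ b ≠ 0 ∧ φ x * ι b = ι a) : Nonempty (R →+* k) := by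
  choose a b hb hab using h
  have key : ∀ (x : R) (c d : D), ψ d ≠ 0 → φ x * ι d = ι c → ψ (a x) / ψ (b x) = ψ c / ψ d := by
    intro x c d hd hcd
    rw [div_eq_div_iff (hb x) hd, ← map_mul, ← map_mul]
    congr 1
    apply hι
    rw [map_mul, map_mul, ← hab x, ← hcd]
    ring
  refine ⟨RingHom.mk ⟨⟨fun x => ψ (a x) / ψ (b x), ?_⟩, ?_⟩ ?_ ?_⟩
  · rw [key 1 1 1 (by simp) (by simp)]
    simp
  · intro x y
    change ψ (a (x * y)) / ψ (b (x * y)) = ψ (a x) / ψ (b x) * (ψ (a y) / ψ (b y))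
    rw [key (x * y) (a x * a y) (b x * b y) (by rw [map_mul]; exact mul_ne_zero (hb x) (hb y))
      (by rw [map_mul, map_mul, map_mul, ← hab x, ← hab y]; ring), map_mul, map_mul]
    rw [div_mul_div_comm]
  · change ψ (a 0) / ψ (b 0) = 0
    rw [key 0 0 1 (by simp) (by simp)]
    simp
  · intro x y
    change ψ (a (x + y)) / ψ (b (x + y)) = ψ (a x) / ψ (b x) + ψ (a y) / ψ (b y)
    rw [key (x + y) (a x * b y + b x * a y) (b x * b y)
      (by rw [map_mul]; exact mul_ne_zero (hb x) (hb y))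
      (by rw [map_add, map_add, map_mul, map_mul, map_mul, ← hab x, ← hab y]; ring),
      div_add_div _ _ (hb x) (hb y), map_add, map_mul, map_mul, map_mul]

/-- The elements that are fractions with good denominators form a subring; so it is enough to
check the generators. -/
theorem ext_closure {Ω D K k : Type} [Field Ω] [CommRing D] [Field K] [Field k] (ι : D →+* K)
    (hι : Function.Injective ι) (ψ : D →+* k) (S : Set Ω) (φ : Subring.closure S →+* K)
    (h : ∀ (x : Ω) (hx : x ∈ S), ∃ a b : D, ψ b ≠ 0 ∧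
      φ ⟨x, Subring.subset_closure hx⟩ * ι b = ι a) :
    Nonempty (Subring.closure S →+* k) := by
  refine ext_hom ι hι ψ φ ?_
  rintro ⟨x, hx⟩
  induction hx using Subring.closure_induction with
  | mem x hx => exact h x hx
  | zero => exact ⟨0, 1, by simp, by
      rw [map_one, mul_one, map_zero]; exact map_zero φ⟩
  | one => exact ⟨1, 1, by simp, by
      rw [map_one, mul_one]; exact map_one φ⟩
  | add x y hx hy h1 h2 =>
    obtain ⟨a, b, hb, hab⟩ := h1
    obtain ⟨c, d, hd, hcd⟩ := h2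
    refine ⟨a * d + b * c, b * d, by rw [map_mul]; exact mul_ne_zero hb hd, ?_⟩
    have h3 : φ ⟨x + y, add_mem hx hy⟩ = φ ⟨x, hx⟩ + φ ⟨y, hy⟩ := by
      rw [← map_add]; rfl
    rw [h3, map_add, map_mul, map_mul, map_mul, ← hab, ← hcd]
    ring
  | neg x hx h1 =>
    obtain ⟨a, b, hb, hab⟩ := h1
    refine ⟨-a, b, hb, ?_⟩
    have h3 : φ ⟨-x, neg_mem hx⟩ = -φ ⟨x, hx⟩ := by
      rw [← map_neg]; rfl
    rw [h3, map_neg, ← hab]
    ring
  | mul x y hx hy h1 h2 =>
    obtain ⟨a, b, hb, hab⟩ := h1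
    obtain ⟨c, d, hd, hcd⟩ := h2
    refine ⟨a * c, b * d, by rw [map_mul]; exact mul_ne_zero hb hd, ?_⟩
    have h3 : φ ⟨x * y, mul_mem hx hy⟩ = φ ⟨x, hx⟩ * φ ⟨y, hy⟩ := by
      rw [← map_mul]; rfl
    rw [h3, map_mul, map_mul, ← hab, ← hcd]
    ring

/-- Finitely generated subrings of fields over `k` have homomorphisms to finite extensions of
`k`. -/
theorem exists_finite (k : Type) [Field k] {Ω : Type} [Field Ω] [Algebra k Ω] (S : Finset Ω) :
    ∃ (K : Type) (_ : Field K) (_ : Algebra k K), FiniteDimensional k K ∧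
      Nonempty (Subring.closure (S : Set Ω) →+* K) := by
  have hfg : Algebra.FiniteType k (Algebra.adjoin k (S : Set Ω)) :=
    (Subalgebra.fg_iff_finiteType _).1 ⟨S, rfl⟩
  obtain ⟨M, hM⟩ := Ideal.exists_maximal (Algebra.adjoin k (S : Set Ω))
  let fK : Field (Algebra.adjoin k (S : Set Ω) ⧸ M) := Ideal.Quotient.field M
  have hle : Subring.closure (S : Set Ω) ≤ (Algebra.adjoin k (S : Set Ω)).toSubring := by
    rw [Subring.closure_le]
    exact Algebra.subset_adjoin
  refine ⟨Algebra.adjoin k (S : Set Ω) ⧸ M, fK, inferInstance, ?_,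
    ⟨(Ideal.Quotient.mk M).comp (Subring.inclusion hle)⟩⟩
  have h1 : Algebra.FiniteType k (Algebra.adjoin k (S : Set Ω) ⧸ M) := inferInstance
  exact finite_of_finite_type_of_isJacobsonRing k (Algebra.adjoin k (S : Set Ω) ⧸ M)

/-- Finitely generated subrings of fields of characteristic zero have homomorphisms to prime
fields `𝔽_q` with `q` outside any finite set. -/
theorem spec_zero {Ω : Type} [Field Ω] [CharZero Ω] (S : Finset Ω) (N : ℕ) (hN : N ≠ 0) :
    ∃ q : ℕ, q.Prime ∧ ¬ q ∣ N ∧ Nonempty (Subring.closure (S : Set Ω) →+* ZMod q) := by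
  classical
  obtain ⟨K, fK, aK, hfin, ⟨φ⟩⟩ := exists_finite ℚ S
  have hc : CharZero K := charZero_of_injective_algebraMap (algebraMap ℚ K).injective
  have haK : aK = DivisionRing.toRatAlgebra := Subsingleton.elim _ _
  subst haK
  have : NumberField K :=
    { to_charZero := hc
      to_finiteDimensional := hfin }
  have h1 : ∀ y : K, ∃ n : ℤ, n ≠ 0 ∧ IsIntegral ℤ (n • y) := by
    intro y
    obtain ⟨m, hm0, hm⟩ := ((IsFractionRing.isAlgebraic_iff ℤ ℚ K).2
      (Algebra.IsAlgebraic.isAlgebraic (R := ℚ) y)).exists_integral_multiple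
    exact ⟨m, hm0, hm⟩
  choose n hn0 hn using h1
  let g : Ω → ℤ := fun x =>
    if hx : x ∈ (S : Set Ω) then n (φ ⟨x, Subring.subset_closure hx⟩) else 1
  have hg : ∀ x, g x ≠ 0 := by
    intro x
    by_cases hx : x ∈ (S : Set Ω)
    · simp only [g, dif_pos hx]; exact hn0 _
    · simp only [g, dif_neg hx]; exact one_ne_zero
  obtain ⟨q, hq, hqN, ⟨ψ⟩⟩ := Pool.Agent.H637R2.Leo.exists_hom K (N * ∏ x ∈ S, (g x).natAbs)
    (mul_ne_zero hN (Finset.prod_ne_zero_iff.2 fun x _ => Int.natAbs_ne_zero.2 (hg x)))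
  have := Fact.mk hq
  refine ⟨q, hq, fun h => hqN (Dvd.dvd.mul_right h _), ?_⟩
  refine ext_closure (algebraMap (𝓞 K) K) (RingOfIntegers.coe_injective) ψ _ φ ?_
  intro x hx
  have h2 : g x = n (φ ⟨x, Subring.subset_closure hx⟩) := by simp only [g, dif_pos hx]
  refine ⟨⟨g x • φ ⟨x, Subring.subset_closure hx⟩, by rw [h2]; exact hn _⟩, (g x : 𝓞 K), ?_, ?_⟩
  · rw [map_intCast, Ne, ZMod.intCast_zmod_eq_zero_iff_dvd]
    intro h3
    apply hqN
    refine Dvd.dvd.mul_left ((Int.natCast_dvd.1 h3).trans ?_) _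
    exact Finset.dvd_prod_of_mem _ hx
  · rw [map_intCast]
    change _ = g x • φ ⟨x, Subring.subset_closure hx⟩
    rw [zsmul_eq_mul, mul_comm]

/-- Finitely generated subrings of fields of characteristic `p` have homomorphisms to the finite
fields with `p ^ m` elements for all sufficiently divisible `m`. -/
theorem spec_p (p : ℕ) [Fact p.Prime] {Ω : Type} [Field Ω] [CharP Ω p] (S : Finset Ω) :
    ∃ m₀ : ℕ, m₀ ≠ 0 ∧ ∀ m : ℕ, m ≠ 0 → m₀ ∣ m →
      Nonempty (Subring.closure (S : Set Ω) →+* GaloisField p m) := by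
  let _ := ZMod.algebra Ω p
  obtain ⟨K, _, _, hfin, ⟨φ⟩⟩ := exists_finite (ZMod p) S
  have : Finite K := Module.finite_of_finite (ZMod p)
  refine ⟨Module.finrank (ZMod p) K, Module.finrank_pos.ne', fun m hm hd => ?_⟩
  obtain ⟨f⟩ := FiniteField.nonempty_algHom_of_finrank_dvd (F := ZMod p) (K := K)
    (L := GaloisField p m) (by rw [GaloisField.finrank p hm]; exact hd)
  exact ⟨(f : K →+* GaloisField p m).comp φ⟩

/-- Finitely generated subrings of `ℚ(t_0, t_1, ...)` have homomorphisms to almost all prime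
fields. -/
theorem spec_rat (S : Finset (FractionRing (MvPolynomial ℕ ℚ))) :
    ∃ N : ℕ, N ≠ 0 ∧ ∀ q : ℕ, q.Prime → ¬ q ∣ N →
      Nonempty (Subring.closure (S : Set (FractionRing (MvPolynomial ℕ ℚ))) →+* ZMod q) := by
  classical
  let ι : MvPolynomial ℕ ℤ →+* FractionRing (MvPolynomial ℕ ℚ) :=
    (algebraMap (MvPolynomial ℕ ℚ) _).comp (MvPolynomial.map (Int.castRingHom ℚ))
  have hι : Function.Injective ι :=
    (IsFractionRing.injective (MvPolynomial ℕ ℚ) (FractionRing (MvPolynomial ℕ ℚ))).comp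
      (MvPolynomial.map_injective _ Int.cast_injective)
  -- clearing denominators of a polynomial
  have h0 : ∀ f : MvPolynomial ℕ ℚ, ∃ (n : ℤ) (a : MvPolynomial ℕ ℤ), n ≠ 0 ∧
      f * MvPolynomial.C (n : ℚ) = MvPolynomial.map (Int.castRingHom ℚ) a := by
    intro f
    induction f using MvPolynomial.induction_on with
    | C r =>
      refine ⟨r.den, MvPolynomial.C r.num, by exact_mod_cast r.den_ne_zero, ?_⟩
      rw [MvPolynomial.map_C, ← MvPolynomial.C_mul]
      congr 1
      simp [Rat.mul_den_eq_num]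
    | add f g hf hg =>
      obtain ⟨n, a, hn, ha⟩ := hf
      obtain ⟨m, b, hm, hb⟩ := hg
      refine ⟨n * m, a * MvPolynomial.C m + b * MvPolynomial.C n, mul_ne_zero hn hm, ?_⟩
      rw [map_add, map_mul, map_mul, ← ha, ← hb, MvPolynomial.map_C, MvPolynomial.map_C]
      push_cast
      rw [MvPolynomial.C_mul]
      simp only [eq_intCast]
      ring
    | mul_X f i hf =>
      obtain ⟨n, a, hn, ha⟩ := hf
      refine ⟨n, a * MvPolynomial.X i, hn, ?_⟩
      rw [map_mul, MvPolynomial.map_X, ← ha]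
      ring
  -- each element is a fraction of integral polynomials
  have h1 : ∀ x : FractionRing (MvPolynomial ℕ ℚ), ∃ a b : MvPolynomial ℕ ℤ,
      b ≠ 0 ∧ x * ι b = ι a := by
    intro x
    obtain ⟨f, g, hg, hx⟩ := IsFractionRing.div_surjective (A := MvPolynomial ℕ ℚ) x
    have hg0 : g ≠ 0 := nonZeroDivisors.ne_zero hg
    obtain ⟨n, a, hn, ha⟩ := h0 f
    obtain ⟨m, b, hm, hb⟩ := h0 g
    refine ⟨a * MvPolynomial.C m, b * MvPolynomial.C n, ?_, ?_⟩
    · intro h2
      have h3 : MvPolynomial.map (Int.castRingHom ℚ) (b * MvPolynomial.C n) = 0 := by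
        rw [h2, map_zero]
      rw [map_mul, ← hb, MvPolynomial.map_C] at h3
      rcases mul_eq_zero.1 h3 with h4 | h4
      · rcases mul_eq_zero.1 h4 with h5 | h5
        · exact hg0 h5
        · rw [MvPolynomial.C_eq_zero] at h5
          exact hm (by exact_mod_cast h5)
      · rw [MvPolynomial.C_eq_zero] at h4
        exact hn (by simpa using h4)
    · have hg1 : algebraMap (MvPolynomial ℕ ℚ) (FractionRing (MvPolynomial ℕ ℚ)) g ≠ 0 := by
        intro h2
        exact hg0 (IsFractionRing.injective (MvPolynomial ℕ ℚ)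
          (FractionRing (MvPolynomial ℕ ℚ)) (by rw [h2, map_zero]))
      change x * algebraMap _ _ (MvPolynomial.map (Int.castRingHom ℚ) (b * MvPolynomial.C n)) =
        algebraMap _ _ (MvPolynomial.map (Int.castRingHom ℚ) (a * MvPolynomial.C m))
      rw [map_mul (MvPolynomial.map (Int.castRingHom ℚ)),
        map_mul (MvPolynomial.map (Int.castRingHom ℚ)), ← ha, ← hb, MvPolynomial.map_C,
        MvPolynomial.map_C, ← hx, map_mul, map_mul, map_mul, map_mul]
      simp only [eq_intCast]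
      field_simp
  choose a b hb0 hab using h1
  have hB : ∏ x ∈ S, b x ≠ 0 := Finset.prod_ne_zero_iff.2 fun x _ => hb0 x
  obtain ⟨v, hv⟩ : ∃ v : ℕ → ℤ, MvPolynomial.eval v (∏ x ∈ S, b x) ≠ 0 := by
    by_contra hcon
    push Not at hcon
    exact hB (MvPolynomial.funext fun v => by rw [hcon v, map_zero])
  refine ⟨(MvPolynomial.eval v (∏ x ∈ S, b x)).natAbs, Int.natAbs_ne_zero.2 hv, fun q hq hd => ?_⟩
  have := Fact.mk hq
  refine ext_closure ι hι ((Int.castRingHom (ZMod q)).comp (MvPolynomial.eval v)) _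
    (Subring.subtype _) ?_
  intro x hx
  refine ⟨a x, b x, ?_, hab x⟩
  change ((MvPolynomial.eval v (b x) : ℤ) : ZMod q) ≠ 0
  rw [Ne, ZMod.intCast_zmod_eq_zero_iff_dvd]
  intro h3
  apply hd
  rw [← Int.natCast_dvd, map_prod]
  exact h3.trans (Finset.dvd_prod_of_mem _ hx)

end Pool.Agent.R412.UF
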