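import Pool.Agent.H637R2.Leo.Split
import Pool.Agent.R412.UF.Spec
set_option autoImplicit false

/-!
# Homomorphisms to prime fields modulo which given polynomials have roots
-/

namespace Pool.Agent.R412.UF

open Polynomial NumberField
open Pool.Agent.H637R2.Leo (th th_coe)

/-- For a number field `L` there is a polynomial `g` such that the ring of integers of `L` has
homomorphisms to `𝔽_q` for almost all primes `q` modulo which `g` has a root. -/
theorem exists_hom_gen (L : Type) [Field L] [NumberField L] :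
    ∃ g : ℤ[X], g.Monic ∧ 0 < g.natDegree ∧ ∃ N : ℕ, N ≠ 0 ∧ ∀ q : ℕ, q.Prime → ¬ q ∣ N →
      (∃ r : ZMod q, aeval r g = 0) → Nonempty (𝓞 L →+* ZMod q) := by
  classical
  -- an integral primitive element
  obtain ⟨α0, hα0⟩ := Field.exists_primitive_element ℚ L
  obtain ⟨m, hm0, hm⟩ := ((IsFractionRing.isAlgebraic_iff ℤ ℚ L).2
    (Algebra.IsAlgebraic.isAlgebraic (R := ℚ) α0)).exists_integral_multiple
  set α : 𝓞 L := th (m • α0) hm with hα
  have hαc : algebraMap (𝓞 L) L α = m • α0 := th_coe _ _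
  have hgen : IntermediateField.adjoin ℚ {algebraMap (𝓞 L) L α} = ⊤ := by
    rw [eq_top_iff, ← hα0, IntermediateField.adjoin_simple_le_iff]
    have h1 : α0 = (m : L)⁻¹ * algebraMap (𝓞 L) L α := by
      rw [hαc, zsmul_eq_mul, ← mul_assoc, inv_mul_cancel₀ (by exact_mod_cast hm0), one_mul]
    rw [h1]
    exact mul_mem (inv_mem (intCast_mem _ _)) (IntermediateField.mem_adjoin_simple_self _ _)
  have hgen' : Algebra.adjoin ℚ {algebraMap (𝓞 L) L α} = ⊤ := by
    rw [← IntermediateField.adjoin_simple_toSubalgebra_of_isAlgebraic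
      (Algebra.IsAlgebraic.isAlgebraic _), hgen]
    rfl
  -- `D 𝓞_L ⊆ ℤ[α]`
  have hαint : IsIntegral ℚ (algebraMap (𝓞 L) L α) := Algebra.IsIntegral.isIntegral _
  set B : PowerBasis ℚ L := PowerBasis.ofAdjoinEqTop hαint hgen' with hB
  have hBgen : B.gen = algebraMap (𝓞 L) L α := by simp [hB]
  have hint : IsIntegral ℤ B.gen := by rw [hBgen]; exact α.2
  have hDint : IsIntegral ℤ (Algebra.discr ℚ B.basis) := by
    apply Algebra.discr_isIntegral
    intro i
    rw [B.coe_basis]
    exact hint.pow _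
  obtain ⟨D, hD⟩ := IsIntegrallyClosed.isIntegral_iff.1 hDint
  have hD0 : D ≠ 0 := by
    intro h
    rw [h, map_zero] at hD
    exact Algebra.discr_not_zero_of_basis ℚ B.basis hD.symm
  have hco : ∀ z : 𝓞 L, ∃ P : ℤ[X], (D : 𝓞 L) * z = aeval α P := by
    intro z
    have h1 := Algebra.discr_mul_isIntegral_mem_adjoin (R := ℤ) ℚ hint z.2
    rw [← hD, hBgen] at h1
    rw [Algebra.adjoin_singleton_eq_range_aeval] at h1
    obtain ⟨P, hP⟩ := h1
    refine ⟨P, ?_⟩
    apply RingOfIntegers.ext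
    change algebraMap (𝓞 L) L _ = algebraMap (𝓞 L) L _
    rw [map_mul]
    have h2 : algebraMap (𝓞 L) L (aeval α P) = aeval (algebraMap (𝓞 L) L α) P :=
      (Polynomial.aeval_algebraMap_apply L α P).symm
    rw [h2]
    change _ = (aeval (algebraMap (𝓞 L) L α)).toRingHom P
    rw [show (aeval (algebraMap (𝓞 L) L α)).toRingHom P = _ from hP]
    rw [Algebra.smul_def]
    simp
    left; rfl
  choose P hP using hco
  -- the minimal polynomial
  have hαZ : IsIntegral ℤ α := Algebra.IsIntegral.isIntegral α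
  set g := minpoly ℤ α with hg
  have hgm : g.Monic := minpoly.monic hαZ
  refine ⟨g, hgm, minpoly.natDegree_pos hαZ, D.natAbs, Int.natAbs_ne_zero.2 hD0, ?_⟩
  rintro q hq hqN ⟨r, hr⟩
  have := Fact.mk hq
  have hDq : ((D : ℤ) : ZMod q) ≠ 0 := by
    rw [Ne, ZMod.intCast_zmod_eq_zero_iff_dvd]
    intro h
    exact hqN (Int.natCast_dvd.1 h)
  -- well-definedness
  have hwd : ∀ P Q : ℤ[X], aeval α P = aeval α Q → aeval r P = aeval r Q := by
    intro P Q h
    have h1 : aeval α (P - Q) = 0 := by rw [map_sub, h, sub_self]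
    obtain ⟨R, hR⟩ := minpoly.isIntegrallyClosed_dvd hαZ h1
    have h2 : aeval r (P - Q) = 0 := by
      rw [hR, map_mul]
      rw [show aeval r (minpoly ℤ α) = 0 from hr, zero_mul]
    rw [map_sub] at h2
    exact sub_eq_zero.1 h2
  have hkey : ∀ (z : 𝓞 L) (Q : ℤ[X]) (e : ℤ), (e : 𝓞 L) * z = aeval α Q → 
      (e : ZMod q) * aeval r (P z) = D * aeval r Q := by
    intro z Q e h
    have h1 : aeval α (C e * P z) = aeval α (C D * Q) := by
      rw [map_mul, map_mul, ← hP z, ← h]
      simp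
      ring
    have h2 := hwd _ _ h1
    rw [map_mul, map_mul] at h2
    simpa using h2
  refine ⟨⟨⟨⟨fun z => (D : ZMod q)⁻¹ * aeval r (P z), ?_⟩, ?_⟩, ?_, ?_⟩⟩
  · have h := hkey 1 1 1 (by simp)
    simp only [Int.cast_one, one_mul, map_one, mul_one] at h
    rw [h]
    exact inv_mul_cancel₀ hDq
  · intro x y
    have h1 : aeval r (P (x * y)) * D = aeval r (P x) * aeval r (P y) := by
      rw [← map_mul]
      have h2 := hkey (x * y) (P x * P y) (D * D) (by
        rw [map_mul, ← hP x, ← hP y]; push_cast; ring)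
      push_cast at h2
      have h3 : (D : ZMod q) * ((D : ZMod q) * aeval r (P (x * y)) - aeval r (P x * P y)) = 0 := by
        linear_combination h2
      rcases mul_eq_zero.1 h3 with h | h
      · exact absurd h hDq
      · linear_combination h
    simp only
    field_simp
    linear_combination h1
  · have h := hkey 0 0 1 (by simp)
    simp only [Int.cast_one, one_mul, map_zero, mul_zero] at h
    simp only
    rw [h, mul_zero]
  · intro x y
    have h := hkey (x + y) (P x + P y) D (by rw [map_add, ← hP x, ← hP y]; ring)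
    rw [map_add] at h
    have h3 := mul_left_cancel₀ hDq h
    simp only
    rw [h3]
    ring

/-- Finitely generated subrings of fields of characteristic zero have homomorphisms to almost all
the prime fields `𝔽_q` in which a certain polynomial has a root. -/
theorem spec_zero_gen {Ω : Type} [Field Ω] [CharZero Ω] (S : Finset Ω) :
    ∃ g : ℤ[X], g.Monic ∧ 0 < g.natDegree ∧ ∃ N : ℕ, N ≠ 0 ∧ ∀ q : ℕ, q.Prime → ¬ q ∣ N →
      (∃ r : ZMod q, aeval r g = 0) → Nonempty (Subring.closure (S : Set Ω) →+* ZMod q) := by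
  classical
  obtain ⟨K, fK, aK, hfin, ⟨φ⟩⟩ := exists_finite ℚ S
  have hc : CharZero K := charZero_of_injective_algebraMap (algebraMap ℚ K).injective
  have haK : aK = DivisionRing.toRatAlgebra := Subsingleton.elim _ _
  subst haK
  have : NumberField K :=
    { to_charZero := hc
      to_finiteDimensional := hfin }
  have h1 : ∀ y : K, ∃ n : ℤ, n ≠ 0 ∧ IsIntegral ℤ (n • y) := by
    intro y
    obtain ⟨m, hm0, hm⟩ := ((IsFractionRing.isAlgebraic_iff ℤ ℚ K).2
      (Algebra.IsAlgebraic.isAlgebraic (R := ℚ) y)).exists_integral_multiple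
    exact ⟨m, hm0, hm⟩
  choose n hn0 hn using h1
  let c : Ω → ℤ := fun x =>
    if hx : x ∈ (S : Set Ω) then n (φ ⟨x, Subring.subset_closure hx⟩) else 1
  have hc : ∀ x, c x ≠ 0 := by
    intro x
    by_cases hx : x ∈ (S : Set Ω)
    · simp only [c, dif_pos hx]; exact hn0 _
    · simp only [c, dif_neg hx]; exact one_ne_zero
  obtain ⟨g, hg1, hg2, N, hN, H⟩ := exists_hom_gen K
  refine ⟨g, hg1, hg2, N * ∏ x ∈ S, (c x).natAbs,
    mul_ne_zero hN (Finset.prod_ne_zero_iff.2 fun x _ => Int.natAbs_ne_zero.2 (hc x)), ?_⟩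
  intro q hq hqN hroot
  have := Fact.mk hq
  obtain ⟨ψ⟩ := H q hq (fun h => hqN (Dvd.dvd.mul_right h _)) hroot
  refine ext_closure (algebraMap (𝓞 K) K) (RingOfIntegers.coe_injective) ψ _ φ ?_
  intro x hx
  have h2 : c x = n (φ ⟨x, Subring.subset_closure hx⟩) := by simp only [c, dif_pos hx]
  refine ⟨⟨c x • φ ⟨x, Subring.subset_closure hx⟩, by rw [h2]; exact hn _⟩, (c x : 𝓞 K), ?_, ?_⟩
  · rw [map_intCast, Ne, ZMod.intCast_zmod_eq_zero_iff_dvd]
    intro h3
    apply hqN
    refine Dvd.dvd.mul_left ((Int.natCast_dvd.1 h3).trans ?_) _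
    exact Finset.dvd_prod_of_mem _ hx
  · rw [map_intCast]
    change _ = c x • φ ⟨x, Subring.subset_closure hx⟩
    rw [zsmul_eq_mul, mul_comm]

end Pool.Agent.R412.UF
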