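import Mathlib
set_option autoImplicit false

/-!
# Algebraically independent elements of `ℤ_p` in given residue classes
-/

namespace Pool.Agent.R412.UF

open Cardinal

theorem indep_affine {L : Type} [Field L] [Algebra ℚ L] {ι : Type} (y : ι → L)
    (hy : AlgebraicIndependent ℚ y) (r c : ι → ℚ) (hc : ∀ i, c i ≠ 0) :
    AlgebraicIndependent ℚ (fun i => algebraMap ℚ L (r i) + algebraMap ℚ L (c i) * y i) := by
  let Φ : MvPolynomial ι ℚ →ₐ[ℚ] MvPolynomial ι ℚ :=
    MvPolynomial.aeval (fun i => MvPolynomial.C (r i) + MvPolynomial.C (c i) * MvPolynomial.X i)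
  let Ψ : MvPolynomial ι ℚ →ₐ[ℚ] MvPolynomial ι ℚ :=
    MvPolynomial.aeval (fun i => MvPolynomial.C (c i)⁻¹ *
      (MvPolynomial.X i - MvPolynomial.C (r i)))
  have h1 : Ψ.comp Φ = AlgHom.id ℚ _ := by
    apply MvPolynomial.algHom_ext
    intro i
    simp only [AlgHom.comp_apply, Φ, Ψ, MvPolynomial.aeval_X, map_add, map_mul,
      MvPolynomial.algHom_C, AlgHom.id_apply, MvPolynomial.algebraMap_eq]
    rw [← mul_assoc, ← MvPolynomial.C_mul, mul_inv_cancel₀ (hc i), MvPolynomial.C_1, one_mul]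
    ring
  have h2 : Function.Injective Φ := by
    intro a b hab
    have h3 : Ψ.comp Φ a = Ψ.comp Φ b := by
      rw [AlgHom.comp_apply, AlgHom.comp_apply, hab]
    rwa [h1] at h3
  rw [algebraicIndependent_iff_injective_aeval] at hy ⊢
  have h4 : MvPolynomial.aeval (fun i => algebraMap ℚ L (r i) + algebraMap ℚ L (c i) * y i) =
      (MvPolynomial.aeval y).comp Φ := by
    apply MvPolynomial.algHom_ext
    intro i
    simp only [AlgHom.comp_apply, Φ, MvPolynomial.aeval_X, map_add, map_mul,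
      MvPolynomial.algHom_C]
  rw [h4]
  exact hy.comp h2

theorem exists_indep_nat (L : Type) [Field L] [CharZero L] [Uncountable L] :
    ∃ y : ℕ → L, AlgebraicIndependent ℚ y := by
  obtain ⟨s, hs⟩ := exists_isTranscendenceBasis ℚ L
  have h2 : Infinite s := by
    by_contra hcon
    rw [not_infinite_iff_finite] at hcon
    have h3 : #(MvPolynomial s ℚ) ≤ ℵ₀ :=
      MvPolynomial.cardinalMk_le_max.trans
        (max_le (max_le Cardinal.mk_le_aleph0 Cardinal.mk_le_aleph0) le_rfl)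
    have h4 : #(Algebra.adjoin ℚ (Set.range ((↑) : s → L))) ≤ ℵ₀ := by
      rw [← Cardinal.mk_congr hs.1.aevalEquiv.toEquiv]
      exact h3
    have h5 : Algebra.IsAlgebraic (Algebra.adjoin ℚ (Set.range ((↑) : s → L))) L :=
      hs.isAlgebraic
    have h6 := Algebra.IsAlgebraic.cardinalMk_le_max
      (Algebra.adjoin ℚ (Set.range ((↑) : s → L))) L
    have h7 : #L ≤ ℵ₀ := h6.trans (max_le h4 le_rfl)
    rw [Cardinal.mk_le_aleph0_iff] at h7
    exact not_countable h7
  let f : ℕ ↪ s := Infinite.natEmbedding s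
  exact ⟨fun n => ((f n : s) : L), hs.1.comp f f.injective⟩

theorem uncountable_padic (q : ℕ) [Fact q.Prime] : Uncountable ℚ_[q] := by
  have h := continuum_le_cardinal_of_nontriviallyNormedField ℚ_[q]
  rw [← Cardinal.aleph0_lt_mk_iff]
  exact Cardinal.aleph0_lt_continuum.trans_le h

theorem exists_indep (q : ℕ) [Fact q.Prime] {ι : Type} [Finite ι] (a : ι → ZMod q) :
    ∃ τ : ι → ℤ_[q], (∀ i, PadicInt.toZMod (τ i) = a i) ∧
      AlgebraicIndependent ℚ (fun i => (τ i : ℚ_[q])) := by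
  have := uncountable_padic q
  obtain ⟨y0, hy0⟩ := exists_indep_nat ℚ_[q]
  let e := Finite.equivFin ι
  have hq0 : (q : ℚ_[q]) ≠ 0 := by
    exact_mod_cast (Fact.out : q.Prime).ne_zero
  let y : ι → ℚ_[q] := fun i => y0 (e i)
  have hy : AlgebraicIndependent ℚ y :=
    hy0.comp (fun i => ((e i : Fin (Nat.card ι)) : ℕ)) (Fin.val_injective.comp e.injective)
  have h1 : ∀ i, ∃ k : ℕ, ‖(q : ℚ_[q]) ^ k * y i‖ < 1 := by
    intro i
    have h2 : (0 : ℝ) < 1 / (‖y i‖ + 1) := by positivity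
    obtain ⟨k, hk⟩ := exists_pow_lt_of_lt_one h2 (Padic.norm_p_lt_one (p := q))
    refine ⟨k, ?_⟩
    rw [norm_mul, norm_pow]
    have h3 : (0 : ℝ) < ‖y i‖ + 1 := by positivity
    calc ‖(q : ℚ_[q])‖ ^ k * ‖y i‖ ≤ ‖(q : ℚ_[q])‖ ^ k * (‖y i‖ + 1) := by
          gcongr; linarith
      _ < 1 / (‖y i‖ + 1) * (‖y i‖ + 1) := by gcongr
      _ = 1 := by field_simp
  choose k hk using h1
  let t : ι → ℤ_[q] := fun i => ⟨(q : ℚ_[q]) ^ (k i) * y i, (hk i).le⟩
  have ht : ∀ i, PadicInt.toZMod (t i) = 0 := by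
    intro i
    have h2 : t i ∈ RingHom.ker (PadicInt.toZMod : ℤ_[q] →+* ZMod q) := by
      rw [PadicInt.ker_toZMod, IsLocalRing.mem_maximalIdeal, PadicInt.mem_nonunits]
      exact hk i
    exact h2
  refine ⟨fun i => ((a i).val : ℤ_[q]) + t i, fun i => ?_, ?_⟩
  · rw [map_add, ht, add_zero, map_natCast, ZMod.natCast_zmod_val]
  · have h3 := indep_affine y hy (fun i => ((a i).val : ℚ)) (fun i => (q : ℚ) ^ (k i))
      (fun i => pow_ne_zero _ (by exact_mod_cast (Fact.out : q.Prime).ne_zero))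
    have h4 : (fun i => ((((a i).val : ℤ_[q]) + t i : ℤ_[q]) : ℚ_[q])) =
        fun i => algebraMap ℚ ℚ_[q] ((a i).val : ℚ) + algebraMap ℚ ℚ_[q] ((q : ℚ) ^ (k i)) * y i := by
      funext i
      rw [PadicInt.coe_add, PadicInt.coe_natCast, map_natCast, map_pow, map_natCast]
    rw [h4]
    exact h3

end Pool.Agent.R412.UF
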