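import Pool.Agent.R388.BS.Final
import Pool.Agent.R412.UF.Gen
import Pool.Agent.R412.UF.Indep
set_option autoImplicit false

/-!
# Embeddings of finitely generated fields in `ℚ_p`
-/

namespace Pool.Agent.R412.UF

open Polynomial IntermediateField Pool.Agent.R388.BS

/-- extension of a homomorphism to the field of fractions -/
theorem ext_frac {D K k : Type} [CommRing D] [Field K] [Field k] (ι : D →+* K)
    (hι : Function.Injective ι) (ψ : D →+* k) (hψ : Function.Injective ψ)
    (h : ∀ x : K, ∃ a b : D, b ≠ 0 ∧ x * ι b = ι a) : ∃ j : K →+* k, ∀ d, j (ι d) = ψ d := by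
  have h' : ∀ x : K, ∃ a b : D, ψ b ≠ 0 ∧ x * ι b = ι a := by
    intro x
    obtain ⟨a, b, hb, hab⟩ := h x
    exact ⟨a, b, fun h0 => hb (hψ (by rw [h0, map_zero])), hab⟩
  choose a b hb hab using h'
  have key : ∀ (x : K) (c d : D), ψ d ≠ 0 → x * ι d = ι c → ψ (a x) / ψ (b x) = ψ c / ψ d := by
    intro x c d hd hcd
    rw [div_eq_div_iff (hb x) hd, ← map_mul, ← map_mul]
    congr 1
    apply hι
    rw [map_mul, map_mul, ← hab x, ← hcd]
    ring
  refine ⟨RingHom.mk ⟨⟨fun x => ψ (a x) / ψ (b x), ?_⟩, ?_⟩ ?_ ?_, ?_⟩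
  · rw [key 1 1 1 (by simp) (by simp)]
    simp
  · intro x y
    change ψ (a (x * y)) / ψ (b (x * y)) = ψ (a x) / ψ (b x) * (ψ (a y) / ψ (b y))
    rw [key (x * y) (a x * a y) (b x * b y) (by rw [map_mul]; exact mul_ne_zero (hb x) (hb y))
      (by rw [map_mul, map_mul, ← hab x, ← hab y]; ring), map_mul, map_mul]
    rw [div_mul_div_comm]
  · change ψ (a 0) / ψ (b 0) = 0
    rw [key 0 0 1 (by simp) (by simp)]
    simp
  · intro x y
    change ψ (a (x + y)) / ψ (b (x + y)) = ψ (a x) / ψ (b x) + ψ (a y) / ψ (b y)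
    rw [key (x + y) (a x * b y + b x * a y) (b x * b y)
      (by rw [map_mul]; exact mul_ne_zero (hb x) (hb y))
      (by rw [map_add, map_mul, map_mul, map_mul, ← hab x, ← hab y]; ring),
      div_add_div _ _ (hb x) (hb y), map_add, map_mul, map_mul, map_mul]
  · intro d
    change ψ (a (ι d)) / ψ (b (ι d)) = ψ d
    rw [key (ι d) d 1 (by simp) (by simp), map_one, div_one]

/-- clearing denominators -/
theorem exists_clear {D K : Type} [CommRing D] [IsDomain D] [Field K] (ι : D →+* K)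
    (h : ∀ x : K, ∃ a b : D, b ≠ 0 ∧ x * ι b = ι a) (g : K[X]) :
    ∃ (c : D) (G : D[X]), c ≠ 0 ∧ G.map ι = C (ι c) * g := by
  induction g using Polynomial.induction_on' with
  | add p q hp hq =>
    obtain ⟨c, G, hc, hG⟩ := hp
    obtain ⟨d, H, hd, hH⟩ := hq
    refine ⟨c * d, C d * G + C c * H, mul_ne_zero hc hd, ?_⟩
    rw [Polynomial.map_add, Polynomial.map_mul, Polynomial.map_mul, map_C, map_C, hG, hH,
      map_mul, C_mul]
    ring
  | monomial n z =>
    obtain ⟨a, b, hb, hab⟩ := h z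
    refine ⟨b, Polynomial.monomial n a, hb, ?_⟩
    rw [Polynomial.map_monomial, C_mul_monomial, ← hab, mul_comm]

/-- elements of the field generated by the `v i` are fractions -/
theorem exists_frac {F σ : Type} [Field F] [Algebra ℚ F] (v : σ → F)
    (ι : MvPolynomial σ ℤ →+* F) (hι : Function.Injective ι)
    (hv : ∀ i, ι (MvPolynomial.X i) = v i) (y : F) (hy : y ∈ adjoin ℚ (Set.range v)) :
    ∃ a b, b ≠ 0 ∧ y * ι b = ι a := by
  have hne : ∀ b, b ≠ 0 → ι b ≠ 0 := fun b hb h0 => hb (hι (by rw [h0, map_zero]))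
  have hc : CharZero F := charZero_of_injective_algebraMap (algebraMap ℚ F).injective
  induction hy using IntermediateField.adjoin_induction with
  | mem x hx =>
    obtain ⟨i, rfl⟩ := hx
    exact ⟨MvPolynomial.X i, 1, one_ne_zero, by rw [map_one, mul_one, hv]⟩
  | algebraMap r =>
    refine ⟨(r.num : MvPolynomial σ ℤ), (r.den : MvPolynomial σ ℤ), ?_, ?_⟩
    · exact_mod_cast r.den_ne_zero
    · rw [map_natCast, map_intCast, eq_ratCast]
      exact_mod_cast Rat.mul_den_eq_num r
  | add x y _ _ h1 h2 =>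
    obtain ⟨a, b, hb, hab⟩ := h1
    obtain ⟨c, d, hd, hcd⟩ := h2
    refine ⟨a * d + b * c, b * d, mul_ne_zero hb hd, ?_⟩
    rw [map_add, map_mul, map_mul, map_mul, ← hab, ← hcd]
    ring
  | inv x _ h1 =>
    obtain ⟨a, b, hb, hab⟩ := h1
    by_cases ha : a = 0
    · rw [ha, map_zero] at hab
      have hx : x = 0 := (mul_eq_zero.1 hab).resolve_right (hne b hb)
      exact ⟨0, 1, one_ne_zero, by rw [hx, inv_zero, zero_mul, map_zero]⟩
    · have hx : x ≠ 0 := by
        rintro rfl
        rw [zero_mul] at hab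
        exact hne a ha hab.symm
      refine ⟨b, a, ha, ?_⟩
      rw [← hab, inv_mul_cancel_left₀ hx]
  | mul x y _ _ h1 h2 =>
    obtain ⟨a, b, hb, hab⟩ := h1
    obtain ⟨c, d, hd, hcd⟩ := h2
    refine ⟨a * c, b * d, mul_ne_zero hb hd, ?_⟩
    rw [map_mul, map_mul, ← hab, ← hcd]
    ring

/-- A finitely generated field of characteristic zero embeds in `ℚ_q` for almost all the primes `q`
modulo which a certain polynomial has a root. -/
theorem padic_embedding (F : Type) [Field F] [Algebra ℚ F] [Algebra.EssFiniteType ℚ F] :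
    ∃ g : ℤ[X], g.Monic ∧ 0 < g.natDegree ∧ ∃ N : ℕ, N ≠ 0 ∧ ∀ (q : ℕ) [Fact q.Prime], ¬ q ∣ N →
      (∃ r : ZMod q, aeval r g = 0) → Nonempty (F →+* ℚ_[q]) := by
  classical
  have hc : CharZero F := charZero_of_injective_algebraMap (algebraMap ℚ F).injective
  obtain ⟨s, hs⟩ := exists_finset_isTranscendenceBasis ℚ F
  set K : IntermediateField ℚ F := adjoin ℚ (Set.range ((↑) : s → F)) with hK
  have halg : Algebra.IsAlgebraic K F := hs.isAlgebraic_field
  have hess : Algebra.EssFiniteType K F := Algebra.EssFiniteType.of_comp ℚ K F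
  have hfin : FiniteDimensional K F := by
    obtain ⟨S, hS⟩ := IntermediateField.fg_top (F := K) (E := F)
    have h1 : FiniteDimensional K (adjoin K (S : Set F)) :=
      finiteDimensional_adjoin fun x _ => (halg.isAlgebraic x).isIntegral
    rw [hS] at h1
    exact Module.Finite.equiv (IntermediateField.topEquiv (F := K) (E := F)).toLinearEquiv
  have hcK : CharZero K := charZero_of_injective_algebraMap (algebraMap ℚ K).injective
  obtain ⟨θ, hθ⟩ := Field.exists_primitive_element K F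
  have hθi : IsIntegral K θ := Algebra.IsIntegral.isIntegral θ
  have hsep : (minpoly K θ).Separable := Algebra.IsSeparable.isSeparable K θ
  -- the polynomial ring
  let ιF : MvPolynomial s ℤ →+* F :=
    (MvPolynomial.aeval (fun i : s => (i : F)) : MvPolynomial s ℤ →ₐ[ℤ] F).toRingHom
  have hιF : Function.Injective ιF :=
    algebraicIndependent_iff_injective_aeval.1
      (hs.1.restrictScalars (R := ℤ) (K := ℚ) (by exact Int.cast_injective))
  have hιX : ∀ i : s, ιF (MvPolynomial.X i) = (i : F) := fun i =>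
    MvPolynomial.aeval_X (R := ℤ) (fun i : s => (i : F)) i
  let ιK : MvPolynomial s ℤ →+* K :=
    (MvPolynomial.aeval (fun i : s => (⟨(i : F), subset_adjoin ℚ _ ⟨i, rfl⟩⟩ : K)) :
      MvPolynomial s ℤ →ₐ[ℤ] K).toRingHom
  have hcomp : (algebraMap K F).comp ιK = ιF := by
    apply MvPolynomial.ringHom_ext
    · intro r
      simp [ιK, ιF]
    · intro i
      rw [RingHom.comp_apply, hιX]
      simp [ιK]
  have hιK : Function.Injective ιK := by
    intro a b h
    apply hιF
    rw [← hcomp, RingHom.comp_apply, RingHom.comp_apply, h]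
  have hfr : ∀ z : K, ∃ a b, b ≠ 0 ∧ z * ιK b = ιK a := by
    intro z
    obtain ⟨a, b, hb, hab⟩ := exists_frac _ ιF hιF hιX (z : F) z.2
    refine ⟨a, b, hb, ?_⟩
    apply (algebraMap K F).injective
    rw [map_mul, ← RingHom.comp_apply, ← RingHom.comp_apply, hcomp]
    exact hab
  obtain ⟨c, G, hc0, hG⟩ := exists_clear ιK hfr (minpoly K θ)
  have hcF : ιF c ≠ 0 := fun h0 => hc0 (hιF (by rw [h0, map_zero]))
  have e0 : eval₂ ιF θ G = 0 := by
    rw [← hcomp, ← eval₂_map, hG, eval₂_mul]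
    have h1 : eval₂ (algebraMap K F) θ (minpoly K θ) = 0 := minpoly.aeval K θ
    rw [h1, mul_zero]
  have e1 : eval₂ ιF θ (derivative G) ≠ 0 := by
    rw [← hcomp, ← eval₂_map, ← derivative_map, hG, derivative_C_mul, eval₂_mul, eval₂_C,
      ← RingHom.comp_apply, hcomp]
    exact mul_ne_zero hcF (hsep.aeval_derivative_ne_zero (minpoly.aeval K θ))
  let S : Finset F := s ∪ {θ, (eval₂ ιF θ (derivative G))⁻¹}
  obtain ⟨g, hg1, hg2, N, hN, H⟩ := spec_zero_gen S
  refine ⟨g, hg1, hg2, N, hN, fun q _ hq hroot => ?_⟩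
  obtain ⟨χ⟩ := H q Fact.out hq hroot
  let x : s → Subring.closure (S : Set F) := fun i => ⟨i, Subring.subset_closure (by
    simp only [S, Finset.coe_union, Set.mem_union, Finset.mem_coe]
    exact Or.inl i.2)⟩
  let θR : Subring.closure (S : Set F) := ⟨θ, Subring.subset_closure (by simp [S])⟩
  let w : Subring.closure (S : Set F) := ⟨(eval₂ ιF θ (derivative G))⁻¹,
    Subring.subset_closure (by simp [S])⟩
  let ιR : MvPolynomial s ℤ →+* Subring.closure (S : Set F) :=
    (MvPolynomial.aeval x : MvPolynomial s ℤ →ₐ[ℤ] Subring.closure (S : Set F)).toRingHom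
  have hιR : ∀ i, ιR (MvPolynomial.X i) = x i := fun i => MvPolynomial.aeval_X (R := ℤ) x i
  have hR : (Subring.subtype (Subring.closure (S : Set F))).comp ιR = ιF := by
    apply MvPolynomial.ringHom_ext
    · intro r
      simp [ιR, ιF]
    · intro i
      rw [RingHom.comp_apply, hιR, hιX]
      rfl
  have r0 : eval₂ ιR θR G = 0 := by
    apply Subtype.ext
    have h1 := hom_eval₂ G ιR (Subring.subtype (Subring.closure (S : Set F))) θR
    rw [hR] at h1
    exact h1.trans e0
  have r1 : eval₂ ιR θR (derivative G) * w = 1 := by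
    apply Subtype.ext
    have h1 := hom_eval₂ (derivative G) ιR (Subring.subtype (Subring.closure (S : Set F))) θR
    rw [hR] at h1
    have h2 : ((eval₂ ιR θR (derivative G) * w : Subring.closure (S : Set F)) : F) =
        eval₂ ιF θ (derivative G) * (eval₂ ιF θ (derivative G))⁻¹ := by
      rw [Subring.coe_mul]
      exact congrArg (· * (eval₂ ιF θ (derivative G))⁻¹) h1
    rw [h2, mul_inv_cancel₀ e1]
    rfl
  -- lifting
  obtain ⟨τ, hτ1, hτ2⟩ := exists_indep q (fun i => χ (x i))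
  let ψ : MvPolynomial s ℤ →+* ℤ_[q] :=
    (MvPolynomial.aeval τ : MvPolynomial s ℤ →ₐ[ℤ] ℤ_[q]).toRingHom
  have hψX : ∀ i, ψ (MvPolynomial.X i) = τ i := fun i => MvPolynomial.aeval_X (R := ℤ) τ i
  have hψ : (PadicInt.toZMod).comp ψ = χ.comp ιR := by
    apply MvPolynomial.ringHom_ext
    · intro r
      simp [ψ, ιR]
    · intro i
      rw [RingHom.comp_apply, RingHom.comp_apply, hιR, hψX]
      exact hτ1 i
  obtain ⟨b, hb⟩ : ∃ b : ℤ_[q], PadicInt.toZMod b = χ θR :=
    ⟨((χ θR).val : ℤ_[q]), by rw [map_natCast, ZMod.natCast_zmod_val]⟩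
  have z0 : PadicInt.toZMod (eval₂ ψ b G) = 0 := by
    rw [hom_eval₂, hψ, hb, ← hom_eval₂, r0, map_zero]
  have z1 : PadicInt.toZMod (eval₂ ψ b (derivative G)) ≠ 0 := by
    rw [hom_eval₂, hψ, hb, ← hom_eval₂]
    intro h
    have h1 := congrArg χ r1
    rw [map_mul, h, zero_mul, map_one] at h1
    exact zero_ne_one h1
  have n0 : ‖eval₂ ψ b G‖ < 1 := by
    have h1 : eval₂ ψ b G ∈ RingHom.ker (PadicInt.toZMod : ℤ_[q] →+* ZMod q) := z0
    rwa [PadicInt.ker_toZMod, IsLocalRing.mem_maximalIdeal, PadicInt.mem_nonunits] at h1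
  have n1 : ‖eval₂ ψ b (derivative G)‖ = 1 := by
    by_contra hcon
    have h1 : ‖eval₂ ψ b (derivative G)‖ < 1 := lt_of_le_of_ne (PadicInt.norm_le_one _) hcon
    rw [← PadicInt.mem_nonunits, ← IsLocalRing.mem_maximalIdeal, ← PadicInt.ker_toZMod] at h1
    exact z1 h1
  obtain ⟨z, hz, -⟩ := hensels_lemma (p := q) (R := ℤ_[q]) (F := G.map ψ) (a := b) (by
    rw [coe_aeval_eq_eval, eval_map, derivative_map, eval_map, n1, one_pow]
    exact n0)
  rw [coe_aeval_eq_eval, eval_map] at hz
  have hψ' : Function.Injective ((PadicInt.Coe.ringHom (p := q)).comp ψ) := by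
    have h1 := algebraicIndependent_iff_injective_aeval.1
      (hτ2.restrictScalars (R := ℤ) (K := ℚ) (by exact Int.cast_injective))
    have h2 : (PadicInt.Coe.ringHom (p := q)).comp ψ =
        (MvPolynomial.aeval (fun i => (τ i : ℚ_[q])) :
          MvPolynomial s ℤ →ₐ[ℤ] ℚ_[q]).toRingHom := by
      apply MvPolynomial.ringHom_ext
      · intro r
        simp [ψ]
      · intro i
        rw [RingHom.comp_apply, hψX]
        exact (MvPolynomial.aeval_X (R := ℤ) (fun i => (τ i : ℚ_[q])) i).symm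
    rw [h2]
    exact h1
  obtain ⟨j, hj⟩ := ext_frac ιK hιK ((PadicInt.Coe.ringHom (p := q)).comp ψ) hψ' hfr
  have hj' : j.comp ιK = (PadicInt.Coe.ringHom (p := q)).comp ψ := RingHom.ext hj
  have hz' : eval₂ j (PadicInt.Coe.ringHom (p := q) z) (minpoly K θ) = 0 := by
    have h1 := hom_eval₂ G ψ (PadicInt.Coe.ringHom (p := q)) z
    rw [hz, map_zero, ← hj', ← eval₂_map, hG, eval₂_mul, eval₂_C] at h1
    refine (mul_eq_zero.1 h1.symm).resolve_left fun h2 => hc0 (hιK ?_)
    rw [map_zero]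
    exact j.injective (by rw [h2, map_zero])
  let e2 : K⟮θ⟯ ≃ₐ[K] F := (equivOfEq hθ).trans topEquiv
  exact ⟨(AdjoinRoot.lift j (PadicInt.Coe.ringHom (p := q) z) hz').comp
    (e2.symm.trans (adjoinRootEquivAdjoin K hθi).symm).toRingEquiv.toRingHom⟩

end Pool.Agent.R412.UF
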