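import Mathlib
set_option autoImplicit false

/-!
# Ultraproducts of sequences of fields and embeddings into them
-/

namespace Pool.Agent.R412.UF

open Filter

section ultra

variable (k : ℕ → Type) [∀ n, Field (k n)] (U : Ultrafilter ℕ)

/-- The ideal of the sequences that vanish at almost all indices for the ultrafilter `U`. -/
def ultraIdeal : Ideal (∀ n, k n) where
  carrier := {f | ∀ᶠ n in (U : Filter ℕ), f n = 0}
  zero_mem' := Eventually.of_forall fun _ => rfl
  add_mem' := by
    intro a b ha hb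
    filter_upwards [ha, hb] with n h1 h2
    rw [Pi.add_apply, h1, h2, add_zero]
  smul_mem' := by
    intro c x hx
    filter_upwards [hx] with n h
    rw [smul_eq_mul, Pi.mul_apply, h, mul_zero]

theorem mem_ultraIdeal (f : ∀ n, k n) :
    f ∈ ultraIdeal k U ↔ ∀ᶠ n in (U : Filter ℕ), f n = 0 := Iff.rfl

instance ultraIdeal_isMaximal : (ultraIdeal k U).IsMaximal := by
  rw [Ideal.isMaximal_iff]
  constructor
  · intro h
    rw [mem_ultraIdeal] at h
    obtain ⟨n, hn⟩ := h.exists
    exact one_ne_zero hn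
  · intro J x hJ hx hxJ
    rw [mem_ultraIdeal, ← Ultrafilter.eventually_not] at hx
    have h1 : (1 : ∀ n, k n) - (fun n => (x n)⁻¹) * x ∈ ultraIdeal k U := by
      rw [mem_ultraIdeal]
      filter_upwards [hx] with n hn
      rw [Pi.sub_apply, Pi.one_apply, Pi.mul_apply, inv_mul_cancel₀ hn, sub_self]
    have h2 : (fun n => (x n)⁻¹) * x ∈ J := J.mul_mem_left _ hxJ
    have h3 := J.add_mem (hJ h1) h2
    rwa [sub_add_cancel] at h3

/-- The ultraproduct of the fields `k 0, k 1, ...` with respect to the ultrafilter `U`. -/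
abbrev UProd : Type := (∀ n, k n) ⧸ ultraIdeal k U

noncomputable instance : Field (UProd k U) := Ideal.Quotient.field _

end ultra

/-- A countable field embeds in an ultraproduct of the fields `k n` if each of its finitely
generated subrings has homomorphisms to almost all of the `k n`. -/
theorem embed {Ω : Type} [Field Ω] [Countable Ω] (k : ℕ → Type) [∀ n, Field (k n)]
    (U : Ultrafilter ℕ) (hU : (U : Filter ℕ) ≤ atTop)
    (h : ∀ S : Finset Ω, ∀ᶠ n in atTop, Nonempty (Subring.closure (S : Set Ω) →+* k n)) :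
    Nonempty (Ω →+* UProd k U) := by
  classical
  obtain ⟨e, he⟩ := exists_surjective_nat Ω
  let A : ℕ → Subring Ω := fun m => Subring.closure (((Finset.range m).image e : Finset Ω) : Set Ω)
  have hA : ∀ m, ∀ᶠ n in atTop, Nonempty (A m →+* k n) := fun m => h _
  have hmono : ∀ {m m' : ℕ}, m ≤ m' → A m ≤ A m' := by
    intro m m' hm
    apply Subring.closure_mono
    intro x hx
    rw [Finset.mem_coe, Finset.mem_image] at hx ⊢
    obtain ⟨a, ha, rfl⟩ := hx
    exact ⟨a, Finset.mem_range.2 (lt_of_lt_of_le (Finset.mem_range.1 ha) hm), rfl⟩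
  let st : ℕ → ℕ := fun n => Nat.findGreatest (fun m => Nonempty (A m →+* k n)) n
  let f : ∀ n, Ω → k n := fun n x =>
    if H : Nonempty (A (st n) →+* k n) ∧ x ∈ A (st n) then H.1.some ⟨x, H.2⟩ else 0
  have hf : ∀ n x (h1 : Nonempty (A (st n) →+* k n)) (h2 : x ∈ A (st n)),
      f n x = h1.some ⟨x, h2⟩ := fun n x h1 h2 => dif_pos ⟨h1, h2⟩
  have ev : ∀ x : Ω, ∀ᶠ n in (U : Filter ℕ), Nonempty (A (st n) →+* k n) ∧ x ∈ A (st n) := by
    intro x
    obtain ⟨a, rfl⟩ := he x
    have h1 : ∀ᶠ n in (U : Filter ℕ), Nonempty (A (a + 1) →+* k n) := hU (hA (a + 1))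
    have h2 : ∀ᶠ n in (U : Filter ℕ), a + 1 ≤ n := hU (eventually_ge_atTop (a + 1))
    filter_upwards [h1, h2] with n h3 h4
    refine ⟨Nat.findGreatest_spec (P := fun m => Nonempty (A m →+* k n)) h4 h3, ?_⟩
    have h5 : a + 1 ≤ st n := Nat.le_findGreatest h4 h3
    apply hmono h5
    apply Subring.subset_closure
    rw [Finset.mem_coe, Finset.mem_image]
    exact ⟨a, Finset.mem_range.2 (Nat.lt_succ_self a), rfl⟩
  refine ⟨RingHom.mk ⟨⟨fun x => Ideal.Quotient.mk _ (fun n => f n x), ?_⟩, ?_⟩ ?_ ?_⟩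
  · rw [← map_one (Ideal.Quotient.mk (ultraIdeal k U)), Ideal.Quotient.eq, mem_ultraIdeal]
    filter_upwards [ev 1] with n h1
    rw [Pi.sub_apply, hf n 1 h1.1 h1.2, sub_eq_zero]
    exact map_one h1.1.some
  · intro x y
    rw [← map_mul (Ideal.Quotient.mk (ultraIdeal k U)), Ideal.Quotient.eq, mem_ultraIdeal]
    filter_upwards [ev x, ev y] with n h1 h2
    rw [Pi.sub_apply, Pi.mul_apply, hf n _ h1.1 h1.2, hf n _ h2.1 h2.2,
      hf n _ h1.1 (mul_mem h1.2 h2.2), sub_eq_zero, ← map_mul]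
    rfl
  · rw [← map_zero (Ideal.Quotient.mk (ultraIdeal k U)), Ideal.Quotient.eq, mem_ultraIdeal]
    filter_upwards [ev 0] with n h1
    rw [Pi.sub_apply, hf n 0 h1.1 h1.2, sub_eq_zero]
    exact map_zero h1.1.some
  · intro x y
    rw [← map_add (Ideal.Quotient.mk (ultraIdeal k U)), Ideal.Quotient.eq, mem_ultraIdeal]
    filter_upwards [ev x, ev y] with n h1 h2
    rw [Pi.sub_apply, Pi.add_apply, hf n _ h1.1 h1.2, hf n _ h2.1 h2.2,
      hf n _ h1.1 (add_mem h1.2 h2.2), sub_eq_zero, ← map_add]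
    rfl

/-- If the characteristics `c n` of the `k n` tend to infinity then the ultraproduct has
characteristic zero. -/
theorem charZero_uprod (k : ℕ → Type) [∀ n, Field (k n)] (U : Ultrafilter ℕ)
    (hU : (U : Filter ℕ) ≤ atTop) (h : ∀ m : ℕ, m ≠ 0 → ∀ᶠ n in atTop, (m : k n) ≠ 0) :
    CharZero (UProd k U) := by
  refine charZero_of_inj_zero fun m hm => ?_
  by_contra hm0
  rw [← map_natCast (Ideal.Quotient.mk (ultraIdeal k U)), Ideal.Quotient.eq_zero_iff_mem,
    mem_ultraIdeal] at hm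
  obtain ⟨n, h1, h2⟩ := (hm.and (hU (h m hm0))).exists
  apply h2
  simpa using h1

/-- The characteristic of an ultraproduct of fields of characteristic `p`. -/
theorem charP_uprod (p : ℕ) (k : ℕ → Type) [∀ n, Field (k n)] [∀ n, CharP (k n) p]
    (U : Ultrafilter ℕ) : CharP (UProd k U) p := by
  refine ⟨fun m => ?_⟩
  rw [← map_natCast (Ideal.Quotient.mk (ultraIdeal k U)), Ideal.Quotient.eq_zero_iff_mem,
    mem_ultraIdeal]
  constructor
  · intro h
    obtain ⟨n, hn⟩ := h.exists
    have h1 : (m : k n) = 0 := by simpa using hn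
    exact (CharP.cast_eq_zero_iff (k n) p m).1 h1
  · intro h
    refine Eventually.of_forall fun n => ?_
    have h1 := (CharP.cast_eq_zero_iff (k n) p m).2 h
    simpa using h1

end Pool.Agent.R412.UF
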