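import Pool.Agent.R388.BS.Final
import Pool.Agent.R412.UF.Ultra
import Pool.Agent.R412.UF.Gen
set_option autoImplicit false

/-!
# Embeddings in ultraproducts of finite fields
-/

namespace Pool.Agent.R412.UF

open Filter Polynomial Pool.Agent.R388.BS

/-- the field `ℚ(t_0, t_1, ...)` and similar fields are countable -/
theorem countable_rat (k : Type) [Field k] [Countable k] : Countable (Rat k) := by
  have h1 : Countable (MvPolynomial ℕ k) := by
    rw [← Cardinal.mk_le_aleph0_iff]
    exact MvPolynomial.cardinalMk_le_max.trans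
      (max_le (max_le Cardinal.mk_le_aleph0 Cardinal.mk_le_aleph0) le_rfl)
  have h2 : Function.Surjective (fun z : MvPolynomial ℕ k × MvPolynomial ℕ k =>
      algebraMap _ (Rat k) z.1 / algebraMap _ (Rat k) z.2) := by
    intro x
    obtain ⟨f, g, _, hx⟩ := IsFractionRing.div_surjective (A := MvPolynomial ℕ k) x
    exact ⟨(f, g), hx⟩
  exact h2.countable

/-- the algebraic closure of a countable field is countable -/
theorem countable_closure (k : Type) [Field k] [Countable k] :
    Countable (AlgebraicClosure k) := by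
  have h := Algebra.IsAlgebraic.cardinalMk_le_max k (AlgebraicClosure k)
  rw [← Cardinal.mk_le_aleph0_iff]
  exact h.trans (max_le Cardinal.mk_le_aleph0 le_rfl)

/-- a sequence of primes such that each finitely generated subring of `Ω` has homomorphisms to
almost all the prime fields -/
theorem exists_primes (Ω : Type) [Field Ω] [CharZero Ω] [Countable Ω] :
    ∃ p : ℕ → ℕ, (∀ m, (p m).Prime) ∧ StrictMono p ∧ ∀ S : Finset Ω, ∀ᶠ m in atTop,
      Nonempty (Subring.closure (S : Set Ω) →+* ZMod (p m)) := by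
  classical
  obtain ⟨e, he⟩ := exists_surjective_nat Ω
  have H : ∀ m B : ℕ, ∃ q : ℕ, B < q ∧ q.Prime ∧
      Nonempty (Subring.closure (((Finset.range m).image e : Finset Ω) : Set Ω) →+* ZMod q) := by
    intro m B
    obtain ⟨q, h1, h2, h3⟩ := spec_zero ((Finset.range m).image e) B.factorial
      (Nat.factorial_ne_zero B)
    refine ⟨q, ?_, h1, h3⟩
    by_contra hcon
    exact h2 (Nat.dvd_factorial h1.pos (not_lt.1 hcon))
  choose Q hQ1 hQ2 hQ3 using H
  let p : ℕ → ℕ := fun m => Nat.rec (Q 0 0) (fun j r => Q (j + 1) r) m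
  have hp : ∀ m, ∃ B, p m = Q m B := by
    intro m
    cases m with
    | zero => exact ⟨0, rfl⟩
    | succ j => exact ⟨p j, rfl⟩
  refine ⟨p, fun m => ?_, strictMono_nat_of_lt_succ fun m => hQ1 (m + 1) (p m), fun S => ?_⟩
  · obtain ⟨B, hB⟩ := hp m
    rw [hB]; exact hQ2 m B
  · choose ix hix using he
    filter_upwards [eventually_ge_atTop (S.sup ix + 1)] with m hm
    obtain ⟨B, hB⟩ := hp m
    rw [hB]
    obtain ⟨φ⟩ := hQ3 m B
    refine ⟨φ.comp (Subring.inclusion (Subring.closure_mono ?_))⟩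
    intro x hx
    rw [Finset.mem_coe, Finset.mem_image]
    refine ⟨ix x, Finset.mem_range.2 ?_, hix x⟩
    have h1 : ix x ≤ S.sup ix := Finset.le_sup (f := ix) hx
    omega

/-- Each monic polynomial of positive degree over `ℤ` has a root modulo `p m` for almost all
`m`. -/
def HasRoots (p : ℕ → ℕ) : Prop :=
  ∀ f : ℤ[X], f.Monic → 0 < f.natDegree → ∀ᶠ m in atTop, ∃ r : ZMod (p m), aeval r f = 0

theorem aeval_int_hom {R S : Type} [CommRing R] [CommRing S] (φ : R →+* S) (f : ℤ[X]) (x : R) :
    aeval (φ x) f = φ (aeval x f) := aeval_algHom_apply φ.toIntAlgHom x f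

/-- there are such sequences of primes -/
theorem exists_hasRoots : ∃ p : ℕ → ℕ, (∀ m, (p m).Prime) ∧ StrictMono p ∧ HasRoots p := by
  have h1 : Countable (AlgebraicClosure ℚ) := countable_closure ℚ
  have h2 : CharZero (AlgebraicClosure ℚ) :=
    charZero_of_injective_algebraMap (algebraMap ℚ (AlgebraicClosure ℚ)).injective
  obtain ⟨p, hp, hp2, H⟩ := exists_primes (AlgebraicClosure ℚ)
  refine ⟨p, hp, hp2, fun f hf hd => ?_⟩
  obtain ⟨α, hα⟩ : ∃ α : AlgebraicClosure ℚ,
      eval₂ (algebraMap ℤ (AlgebraicClosure ℚ)) α f = 0 := by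
    have h4 : (f.map (algebraMap ℤ (AlgebraicClosure ℚ))).degree = f.degree := hf.degree_map _
    obtain ⟨x, hx⟩ := IsAlgClosed.exists_root (f.map (algebraMap ℤ (AlgebraicClosure ℚ))) (by
      rw [h4]
      exact (natDegree_pos_iff_degree_pos.1 hd).ne')
    exact ⟨x, by rwa [IsRoot, eval_map] at hx⟩
  filter_upwards [H {α}] with m hm
  obtain ⟨φ⟩ := hm
  have hmem : α ∈ Subring.closure ((({α} : Finset (AlgebraicClosure ℚ))) : Set (AlgebraicClosure ℚ)) :=
    Subring.subset_closure (by simp)
  refine ⟨φ ⟨α, hmem⟩, ?_⟩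
  rw [aeval_int_hom φ f ⟨α, hmem⟩]
  have h6 : aeval (⟨α, hmem⟩ : Subring.closure
      ((({α} : Finset (AlgebraicClosure ℚ))) : Set (AlgebraicClosure ℚ))) f = 0 := by
    apply Subtype.ext
    have h7 := aeval_int_hom (Subring.subtype (Subring.closure
      ((({α} : Finset (AlgebraicClosure ℚ))) : Set (AlgebraicClosure ℚ)))) f ⟨α, hmem⟩
    exact h7.symm.trans hα
  rw [h6, map_zero]

section hom

variable (p : ℕ → ℕ) [∀ m, Fact (p m).Prime]

/-- ultraproducts of distinct prime fields have characteristic zero -/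
theorem charZero_primes (hp : Function.Injective p) (U : Ultrafilter ℕ)
    (hU : (U : Filter ℕ) ≤ atTop) : CharZero (UProd (fun m => ZMod (p m)) U) := by
  refine charZero_uprod _ U hU fun m hm => ?_
  have h1 := hp.nat_tendsto_atTop.eventually_gt_atTop m
  filter_upwards [h1] with n hn h2
  rw [ZMod.natCast_eq_zero_iff] at h2
  exact absurd (Nat.le_of_dvd (Nat.pos_of_ne_zero hm) h2) (not_le.2 hn)

/-- `ℚ(t_0, t_1, ...)` embeds in each ultraproduct of distinct prime fields -/
theorem exists_rat_hom (hp : Function.Injective p) (U : Ultrafilter ℕ)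
    (hU : (U : Filter ℕ) ≤ atTop) : Nonempty (Rat ℚ →+* UProd (fun m => ZMod (p m)) U) := by
  have := countable_rat ℚ
  refine embed _ U hU fun S => ?_
  obtain ⟨N, hN, h⟩ := spec_rat S
  filter_upwards [hp.nat_tendsto_atTop.eventually_gt_atTop N] with m hm
  exact h (p m) (Fact.out) fun hd => absurd (Nat.le_of_dvd (Nat.pos_of_ne_zero hN) hd) (not_le.2 hm)

/-- each countable field of characteristic zero embeds in the ultraproducts of the prime fields of
such a sequence -/
theorem exists_hom_zero (hp : Function.Injective p) (hr : HasRoots p) (U : Ultrafilter ℕ)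
    (hU : (U : Filter ℕ) ≤ atTop) (Ω : Type) [Field Ω] [CharZero Ω] [Countable Ω] :
    Nonempty (Ω →+* UProd (fun m => ZMod (p m)) U) := by
  refine embed _ U hU fun S => ?_
  obtain ⟨g, hg1, hg2, N, hN, h⟩ := spec_zero_gen S
  filter_upwards [hp.nat_tendsto_atTop.eventually_gt_atTop N, hr g hg1 hg2] with m hm hm2
  exact h (p m) (Fact.out)
    (fun hd => absurd (Nat.le_of_dvd (Nat.pos_of_ne_zero hN) hd) (not_le.2 hm)) hm2

end hom

/-- each countable field of characteristic `q` embeds in the ultraproducts of the fields with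
`q ^ (d m)` elements if each positive integer divides almost all of the `d m` -/
theorem exists_hom_p (q : ℕ) [Fact q.Prime] (d : ℕ → ℕ) (hd0 : ∀ m, d m ≠ 0)
    (hd : ∀ a : ℕ, a ≠ 0 → ∀ᶠ m in atTop, a ∣ d m) (U : Ultrafilter ℕ)
    (hU : (U : Filter ℕ) ≤ atTop) (Ω : Type) [Field Ω] [CharP Ω q] [Countable Ω] :
    Nonempty (Ω →+* UProd (fun m => GaloisField q (d m)) U) := by
  refine embed _ U hU fun S => ?_
  obtain ⟨m₀, hm₀, h⟩ := spec_p q S
  filter_upwards [hd m₀ hm₀] with m hm
  exact h (d m) (hd0 m) hm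

end Pool.Agent.R412.UF
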