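import Pool.Agent.R412.UF.Cassels
set_option autoImplicit false

/-!
# Embeddings of finitely generated fields of characteristic `q` in fields of Laurent series
-/

namespace Pool.Agent.R412.UF

open Polynomial IntermediateField Pool.Agent.R388.BS

theorem uncountable_powerSeries (k : Type) [Field k] : Uncountable (PowerSeries k) := by
  classical
  have h : Function.Injective
      (fun s : Set ℕ => PowerSeries.mk (fun n => if n ∈ s then (1 : k) else 0)) := by
    intro s t h
    ext n
    have h1 := congrArg (PowerSeries.coeff n) h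
    simp only [PowerSeries.coeff_mk] at h1
    by_cases hs : n ∈ s <;> by_cases ht : n ∈ t <;> simp_all
  have h2 : Uncountable (Set ℕ) := by
    rw [← Cardinal.aleph0_lt_mk_iff, Cardinal.mk_set, Cardinal.mk_nat]
    exact Cardinal.cantor _
  exact h.uncountable

theorem exists_indep_power (k : Type) [Field k] [Countable k] :
    ∃ y : ℕ → PowerSeries k, AlgebraicIndependent k y := by
  obtain ⟨s, hs⟩ := exists_isTranscendenceBasis k (PowerSeries k)
  have h2 : Infinite s := by
    by_contra hcon
    rw [not_infinite_iff_finite] at hcon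
    have h3 : Cardinal.mk (MvPolynomial s k) ≤ Cardinal.aleph0 :=
      MvPolynomial.cardinalMk_le_max.trans
        (max_le (max_le Cardinal.mk_le_aleph0 Cardinal.mk_le_aleph0) le_rfl)
    have h4 : Cardinal.mk (Algebra.adjoin k (Set.range ((↑) : s → PowerSeries k))) ≤
        Cardinal.aleph0 := by
      rw [← Cardinal.mk_congr hs.1.aevalEquiv.toEquiv]
      exact h3
    have h5 : Algebra.IsAlgebraic (Algebra.adjoin k (Set.range ((↑) : s → PowerSeries k)))
      (PowerSeries k) := hs.isAlgebraic
    have h6 := Algebra.IsAlgebraic.cardinalMk_le_max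
      (Algebra.adjoin k (Set.range ((↑) : s → PowerSeries k))) (PowerSeries k)
    have h7 : Cardinal.mk (PowerSeries k) ≤ Cardinal.aleph0 := h6.trans (max_le h4 le_rfl)
    rw [Cardinal.mk_le_aleph0_iff] at h7
    have := uncountable_powerSeries k
    exact not_countable h7
  let f : ℕ ↪ s := Infinite.natEmbedding s
  exact ⟨fun n => ((f n : s) : PowerSeries k), hs.1.comp f f.injective⟩

theorem indep_translate {k L : Type} [Field k] [CommRing L] [Algebra k L] {ι : Type} (y : ι → L)
    (hy : AlgebraicIndependent k y) (r : ι → k) :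
    AlgebraicIndependent k (fun i => y i + algebraMap k L (r i)) := by
  let Φ : MvPolynomial ι k →ₐ[k] MvPolynomial ι k :=
    MvPolynomial.aeval (fun i => MvPolynomial.X i + MvPolynomial.C (r i))
  let Ψ : MvPolynomial ι k →ₐ[k] MvPolynomial ι k :=
    MvPolynomial.aeval (fun i => MvPolynomial.X i - MvPolynomial.C (r i))
  have h1 : Ψ.comp Φ = AlgHom.id k _ := by
    apply MvPolynomial.algHom_ext
    intro i
    simp only [AlgHom.comp_apply, Φ, Ψ, MvPolynomial.aeval_X, map_add,
      MvPolynomial.algHom_C, AlgHom.id_apply, MvPolynomial.algebraMap_eq]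
    ring
  have h2 : Function.Injective Φ := by
    intro a b hab
    have h3 : Ψ.comp Φ a = Ψ.comp Φ b := by
      rw [AlgHom.comp_apply, AlgHom.comp_apply, hab]
    rwa [h1] at h3
  rw [algebraicIndependent_iff_injective_aeval] at hy ⊢
  have h4 : MvPolynomial.aeval (fun i => y i + algebraMap k L (r i)) =
      (MvPolynomial.aeval y).comp Φ := by
    apply MvPolynomial.algHom_ext
    intro i
    simp only [AlgHom.comp_apply, Φ, MvPolynomial.aeval_X, map_add, MvPolynomial.algHom_C]
  rw [h4]
  exact hy.comp h2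

theorem exists_indep_p {k : Type} [Field k] [Countable k] {ι : Type} [Finite ι] (a : ι → k) :
    ∃ τ : ι → PowerSeries k, (∀ i, PowerSeries.constantCoeff (τ i) = a i) ∧
      AlgebraicIndependent k τ := by
  obtain ⟨y0, hy0⟩ := exists_indep_power k
  let e := Finite.equivFin ι
  let y : ι → PowerSeries k := fun i => y0 (e i)
  have hy : AlgebraicIndependent k y :=
    hy0.comp (fun i => ((e i : Fin (Nat.card ι)) : ℕ)) (Fin.val_injective.comp e.injective)
  refine ⟨fun i => y i + algebraMap k (PowerSeries k) (a i - PowerSeries.constantCoeff (y i)),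
    fun i => ?_, indep_translate y hy _⟩
  rw [map_add]
  have h1 : PowerSeries.constantCoeff
      (algebraMap k (PowerSeries k) (a i - PowerSeries.constantCoeff (y i))) =
      a i - PowerSeries.constantCoeff (y i) := by
    rw [PowerSeries.algebraMap_apply]
    simp
  rw [h1]
  ring

/-- elements of the field generated by the `v i` are fractions -/
theorem exists_frac_p {k F σ : Type} [Field k] [Field F] [Algebra k F] (v : σ → F)
    (ι : MvPolynomial σ k →+* F) (hι : Function.Injective ι)
    (hv : ∀ i, ι (MvPolynomial.X i) = v i) (hC : ∀ r, ι (MvPolynomial.C r) = algebraMap k F r)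
    (y : F) (hy : y ∈ adjoin k (Set.range v)) :
    ∃ a b, b ≠ 0 ∧ y * ι b = ι a := by
  have hne : ∀ b, b ≠ 0 → ι b ≠ 0 := fun b hb h0 => hb (hι (by rw [h0, map_zero]))
  induction hy using IntermediateField.adjoin_induction with
  | mem x hx =>
    obtain ⟨i, rfl⟩ := hx
    exact ⟨MvPolynomial.X i, 1, one_ne_zero, by rw [map_one, mul_one, hv]⟩
  | algebraMap r =>
    exact ⟨MvPolynomial.C r, 1, one_ne_zero, by rw [map_one, mul_one, hC]⟩
  | add x y _ _ h1 h2 =>
    obtain ⟨a, b, hb, hab⟩ := h1
    obtain ⟨c, d, hd, hcd⟩ := h2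
    refine ⟨a * d + b * c, b * d, mul_ne_zero hb hd, ?_⟩
    rw [map_add, map_mul, map_mul, map_mul, ← hab, ← hcd]
    ring
  | inv x _ h1 =>
    obtain ⟨a, b, hb, hab⟩ := h1
    by_cases ha : a = 0
    · rw [ha, map_zero] at hab
      have hx : x = 0 := (mul_eq_zero.1 hab).resolve_right (hne b hb)
      exact ⟨0, 1, one_ne_zero, by rw [hx, inv_zero, zero_mul, map_zero]⟩
    · have hx : x ≠ 0 := by
        rintro rfl
        rw [zero_mul] at hab
        exact hne a ha hab.symm
      refine ⟨b, a, ha, ?_⟩
      rw [← hab, inv_mul_cancel_left₀ hx]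
  | mul x y _ _ h1 h2 =>
    obtain ⟨a, b, hb, hab⟩ := h1
    obtain ⟨c, d, hd, hcd⟩ := h2
    refine ⟨a * c, b * d, mul_ne_zero hb hd, ?_⟩
    rw [map_mul, map_mul, ← hab, ← hcd]
    ring

/-- Hensel's lemma for power series, for polynomials whose leading coefficient is a unit. -/
theorem hensel_power {k : Type} [Field k] (P : (PowerSeries k)[X]) (b : PowerSeries k)
    (hL : PowerSeries.constantCoeff P.leadingCoeff ≠ 0)
    (h0 : PowerSeries.constantCoeff (P.eval b) = 0)
    (h1 : PowerSeries.constantCoeff ((derivative P).eval b) ≠ 0) : ∃ z, P.eval z = 0 := by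
  obtain ⟨u, hu⟩ : ∃ u : PowerSeries k, u * P.leadingCoeff = 1 := by
    have h2 : IsUnit P.leadingCoeff :=
      PowerSeries.isUnit_iff_constantCoeff.2 (isUnit_iff_ne_zero.2 hL)
    obtain ⟨v, hv⟩ := h2.exists_left_inv
    exact ⟨v, hv⟩
  have hu0 : u ≠ 0 := by
    rintro rfl
    rw [zero_mul] at hu
    exact zero_ne_one hu
  have hcu : PowerSeries.constantCoeff u ≠ 0 := by
    intro h2
    have h3 := congrArg PowerSeries.constantCoeff hu
    rw [map_mul, h2, zero_mul, map_one] at h3
    exact zero_ne_one h3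
  have hm : (C u * P).Monic := monic_C_mul_of_mul_leadingCoeff_eq_one hu
  obtain ⟨z, hz, -⟩ := HenselianRing.is_henselian (R := PowerSeries k)
    (I := Ideal.span {PowerSeries.X}) (C u * P) hm b
    (by
      rw [Ideal.mem_span_singleton, PowerSeries.X_dvd_iff, eval_mul, eval_C, map_mul, h0, mul_zero])
    (by
      apply IsUnit.map
      rw [PowerSeries.isUnit_iff_constantCoeff, isUnit_iff_ne_zero, derivative_C_mul, eval_mul,
        eval_C, map_mul]
      exact mul_ne_zero hcu h1)
  refine ⟨z, ?_⟩
  rw [IsRoot, eval_mul, eval_C] at hz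
  exact (mul_eq_zero.1 hz).resolve_left hu0

/-- A finitely generated field of characteristic `q` embeds in the field of Laurent series over the
field with `q ^ m` elements for all sufficiently divisible `m`. -/
theorem laurent_embedding (q : ℕ) [Fact q.Prime] (F : Type) [Field F] [Algebra (ZMod q) F]
    [Algebra.EssFiniteType (ZMod q) F] :
    ∃ m₀ : ℕ, m₀ ≠ 0 ∧ ∀ m : ℕ, m ≠ 0 → m₀ ∣ m →
      Nonempty (F →+* LaurentSeries (GaloisField q m)) := by
  classical
  have hcF : CharP F q := charP_of_injective_algebraMap (algebraMap (ZMod q) F).injective q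
  obtain ⟨s, hs⟩ := exists_finset_isTranscendenceBasis (ZMod q) F
  set K : IntermediateField (ZMod q) F := adjoin (ZMod q) (Set.range ((↑) : s → F)) with hK
  have halg : Algebra.IsAlgebraic K F := hs.isAlgebraic_field
  have hess : Algebra.EssFiniteType K F := Algebra.EssFiniteType.of_comp (ZMod q) K F
  have hfin : FiniteDimensional K F := by
    obtain ⟨S, hS⟩ := IntermediateField.fg_top (F := K) (E := F)
    have h1 : FiniteDimensional K (adjoin K (S : Set F)) :=
      finiteDimensional_adjoin fun x _ => (halg.isAlgebraic x).isIntegral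
    rw [hS] at h1
    exact Module.Finite.equiv (IntermediateField.topEquiv (F := K) (E := F)).toLinearEquiv
  let Es := separableClosure K F
  obtain ⟨θ, hθ⟩ := Field.exists_primitive_element K Es
  have hθi : IsIntegral K θ := Algebra.IsIntegral.isIntegral θ
  have hsep : (minpoly K θ).Separable := Algebra.IsSeparable.isSeparable K θ
  let φ : F →+* Es := IsPurelyInseparable.iterateFrobenius Es F (ringExpChar Es) le_rfl
  have hcE : CharP Es q := (RingHom.charP_iff (algebraMap Es F) (algebraMap Es F).injective q).2 hcF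
  -- the polynomial ring
  let ιF : MvPolynomial s (ZMod q) →+* F :=
    (MvPolynomial.aeval (fun i : s => (i : F)) : MvPolynomial s (ZMod q) →ₐ[ZMod q] F).toRingHom
  have hιF : Function.Injective ιF := algebraicIndependent_iff_injective_aeval.1 hs.1
  have hιX : ∀ i : s, ιF (MvPolynomial.X i) = (i : F) := fun i =>
    MvPolynomial.aeval_X (R := ZMod q) (fun i : s => (i : F)) i
  have hιC : ∀ r, ιF (MvPolynomial.C r) = algebraMap (ZMod q) F r := fun r =>
    MvPolynomial.aeval_C (fun i : s => (i : F)) r
  let ιK : MvPolynomial s (ZMod q) →+* K :=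
    (MvPolynomial.aeval (fun i : s => (⟨(i : F), subset_adjoin (ZMod q) _ ⟨i, rfl⟩⟩ : K)) :
      MvPolynomial s (ZMod q) →ₐ[ZMod q] K).toRingHom
  have hcomp : (algebraMap K F).comp ιK = ιF := by
    apply MvPolynomial.ringHom_ext'
    · exact RingHom.ext_zmod _ _
    · intro i
      rw [RingHom.comp_apply, hιX]
      simp [ιK]
  have hιK : Function.Injective ιK := by
    intro a b h
    apply hιF
    rw [← hcomp, RingHom.comp_apply, RingHom.comp_apply, h]
  have hfr : ∀ z : K, ∃ a b, b ≠ 0 ∧ z * ιK b = ιK a := by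
    intro z
    obtain ⟨a, b, hb, hab⟩ := exists_frac_p _ ιF hιF hιX hιC (z : F) z.2
    refine ⟨a, b, hb, ?_⟩
    apply (algebraMap K F).injective
    rw [map_mul, ← RingHom.comp_apply, ← RingHom.comp_apply, hcomp]
    exact hab
  obtain ⟨c, G, hc0, hG⟩ := exists_clear ιK hfr (minpoly K θ)
  let ιE : MvPolynomial s (ZMod q) →+* Es := (algebraMap K Es).comp ιK
  have hιE : Function.Injective ιE := (algebraMap K Es).injective.comp hιK
  have hcE0 : ιE c ≠ 0 := fun h0 => hc0 (hιE (by rw [h0, map_zero]))
  have hG0 : G ≠ 0 := by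
    rintro rfl
    rw [Polynomial.map_zero] at hG
    rcases mul_eq_zero.1 hG.symm with h1 | h1
    · rw [C_eq_zero] at h1
      exact hc0 (hιK (by rw [h1, map_zero]))
    · exact minpoly.ne_zero hθi h1
  have hL0 : ιE G.leadingCoeff ≠ 0 := fun h0 =>
    leadingCoeff_ne_zero.2 hG0 (hιE (by rw [h0, map_zero]))
  have e0 : eval₂ ιE θ G = 0 := by
    rw [← eval₂_map, hG, eval₂_mul]
    have h1 : eval₂ (algebraMap K Es) θ (minpoly K θ) = 0 := minpoly.aeval K θ
    rw [h1, mul_zero]
  have e1 : eval₂ ιE θ (derivative G) ≠ 0 := by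
    rw [← eval₂_map, ← derivative_map, hG, derivative_C_mul, eval₂_mul, eval₂_C]
    exact mul_ne_zero hcE0 (hsep.aeval_derivative_ne_zero (minpoly.aeval K θ))
  let S : Finset Es := (Finset.univ.image (fun i : s => ιE (MvPolynomial.X i))) ∪
    {θ, (eval₂ ιE θ (derivative G))⁻¹, (ιE G.leadingCoeff)⁻¹}
  obtain ⟨m₀, hm₀, H⟩ := spec_p q S
  refine ⟨m₀, hm₀, fun m hm hd => ?_⟩
  obtain ⟨χ⟩ := H m hm hd
  have hmem : ∀ x ∈ S, x ∈ Subring.closure (S : Set Es) := fun x hx => Subring.subset_closure hx
  have hιmem : ∀ d, ιE d ∈ Subring.closure (S : Set Es) := by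
    intro d
    induction d using MvPolynomial.induction_on with
    | C r =>
      have h1 : (MvPolynomial.C r : MvPolynomial s (ZMod q)) = ((r.val : ℕ) : MvPolynomial s (ZMod q)) := by
        rw [← map_natCast (MvPolynomial.C : ZMod q →+* MvPolynomial s (ZMod q)),
          ZMod.natCast_zmod_val]
      rw [h1, map_natCast]
      exact natCast_mem _ _
    | add p r hp hr => rw [map_add]; exact add_mem hp hr
    | mul_X p i hp =>
      rw [map_mul]
      refine mul_mem hp (hmem _ ?_)
      simp only [S, Finset.mem_union, Finset.mem_image]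
      exact Or.inl ⟨i, Finset.mem_univ _, rfl⟩
  let ιR : MvPolynomial s (ZMod q) →+* Subring.closure (S : Set Es) :=
    ιE.codRestrict _ hιmem
  have hR : (Subring.subtype (Subring.closure (S : Set Es))).comp ιR = ιE := by
    apply RingHom.ext
    intro d
    rfl
  let θR : Subring.closure (S : Set Es) := ⟨θ, hmem _ (by simp [S])⟩
  let w : Subring.closure (S : Set Es) := ⟨(eval₂ ιE θ (derivative G))⁻¹, hmem _ (by simp [S])⟩
  let w' : Subring.closure (S : Set Es) := ⟨(ιE G.leadingCoeff)⁻¹, hmem _ (by simp [S])⟩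
  have r0 : eval₂ ιR θR G = 0 := by
    apply Subtype.ext
    have h1 := hom_eval₂ G ιR (Subring.subtype (Subring.closure (S : Set Es))) θR
    rw [hR] at h1
    exact h1.trans e0
  have r1 : eval₂ ιR θR (derivative G) * w = 1 := by
    apply Subtype.ext
    have h1 := hom_eval₂ (derivative G) ιR (Subring.subtype (Subring.closure (S : Set Es))) θR
    rw [hR] at h1
    have h2 : ((eval₂ ιR θR (derivative G) * w : Subring.closure (S : Set Es)) : Es) =
        eval₂ ιE θ (derivative G) * (eval₂ ιE θ (derivative G))⁻¹ := by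
      rw [Subring.coe_mul]
      exact congrArg (· * (eval₂ ιE θ (derivative G))⁻¹) h1
    rw [h2, mul_inv_cancel₀ e1]
    rfl
  have r2 : ιR G.leadingCoeff * w' = 1 := by
    apply Subtype.ext
    have h2 : ((ιR G.leadingCoeff * w' : Subring.closure (S : Set Es)) : Es) =
        ιE G.leadingCoeff * (ιE G.leadingCoeff)⁻¹ := rfl
    rw [h2, mul_inv_cancel₀ hL0]
    rfl
  -- lifting
  obtain ⟨τ, hτ1, hτ2⟩ := exists_indep_p (k := GaloisField q m)
    (fun i : s => χ (ιR (MvPolynomial.X i)))
  let ψ : MvPolynomial s (ZMod q) →+* PowerSeries (GaloisField q m) :=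
    (MvPolynomial.aeval τ :
      MvPolynomial s (ZMod q) →ₐ[ZMod q] PowerSeries (GaloisField q m)).toRingHom
  have hψX : ∀ i, ψ (MvPolynomial.X i) = τ i := fun i => MvPolynomial.aeval_X (R := ZMod q) τ i
  have hψinj : Function.Injective ψ :=
    algebraicIndependent_iff_injective_aeval.1
      (hτ2.restrictScalars (R := ZMod q) (K := GaloisField q m)
        (algebraMap (ZMod q) (GaloisField q m)).injective)
  have hψ : (PowerSeries.constantCoeff (R := GaloisField q m)).comp ψ = χ.comp ιR := by
    apply MvPolynomial.ringHom_ext'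
    · exact RingHom.ext_zmod _ _
    · intro i
      rw [RingHom.comp_apply, RingHom.comp_apply, hψX]
      exact hτ1 i
  let b : PowerSeries (GaloisField q m) := PowerSeries.C (χ θR)
  have hb : PowerSeries.constantCoeff b = χ θR := PowerSeries.constantCoeff_C _
  have z0 : PowerSeries.constantCoeff (eval₂ ψ b G) = 0 := by
    rw [hom_eval₂, hψ, hb, ← hom_eval₂, r0, map_zero]
  have z1 : PowerSeries.constantCoeff (eval₂ ψ b (derivative G)) ≠ 0 := by
    rw [hom_eval₂, hψ, hb, ← hom_eval₂]
    intro h
    have h1 := congrArg χ r1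
    rw [map_mul, h, zero_mul, map_one] at h1
    exact zero_ne_one h1
  have z2 : PowerSeries.constantCoeff (ψ G.leadingCoeff) ≠ 0 := by
    rw [← RingHom.comp_apply, hψ, RingHom.comp_apply]
    intro h
    have h1 := congrArg χ r2
    rw [map_mul, h, zero_mul, map_one] at h1
    exact zero_ne_one h1
  have hlead : (G.map ψ).leadingCoeff = ψ G.leadingCoeff := by
    apply leadingCoeff_map_of_leadingCoeff_ne_zero
    intro h
    apply z2
    rw [h, map_zero]
  obtain ⟨z, hz⟩ := hensel_power (G.map ψ) b (by rw [hlead]; exact z2)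
    (by rw [eval_map]; exact z0) (by rw [derivative_map, eval_map]; exact z1)
  rw [eval_map] at hz
  let κ : PowerSeries (GaloisField q m) →+* LaurentSeries (GaloisField q m) :=
    algebraMap (PowerSeries (GaloisField q m)) (LaurentSeries (GaloisField q m))
  have hκ : Function.Injective κ := IsFractionRing.injective _ _
  obtain ⟨j, hj⟩ := ext_frac ιK hιK (κ.comp ψ) (hκ.comp hψinj) hfr
  have hj' : j.comp ιK = κ.comp ψ := RingHom.ext hj
  have hz' : eval₂ j (κ z) (minpoly K θ) = 0 := by
    have h1 := hom_eval₂ G ψ κ z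
    rw [hz, map_zero, ← hj', ← eval₂_map, hG, eval₂_mul, eval₂_C] at h1
    refine (mul_eq_zero.1 h1.symm).resolve_left fun h2 => hc0 (hιK ?_)
    rw [map_zero]
    exact j.injective (by rw [h2, map_zero])
  let e2 : K⟮θ⟯ ≃ₐ[K] Es := (equivOfEq hθ).trans topEquiv
  exact ⟨((AdjoinRoot.lift j (κ z) hz').comp
    (e2.symm.trans (adjoinRootEquivAdjoin K hθi).symm).toRingEquiv.toRingHom).comp φ⟩

end Pool.Agent.R412.UF
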