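import Pool.Agent.R412.UF.Many
import Pool.Agent.R412.UF.Laurent
set_option autoImplicit false

/-!
# Vanishing for local fields of characteristic `q`
-/

namespace Pool.Agent.R412.UF

open Polynomial IntermediateField Pool.Agent.R388.BS

theorem charP_laurent (q : ℕ) [Fact q.Prime] (m : ℕ) :
    CharP (LaurentSeries (GaloisField q m)) q := by
  let f : GaloisField q m →+* LaurentSeries (GaloisField q m) :=
    (algebraMap (PowerSeries (GaloisField q m)) (LaurentSeries (GaloisField q m))).comp
      (PowerSeries.C (R := GaloisField q m))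
  exact (RingHom.charP_iff f f.injective q).1 inferInstance

theorem exists_rat_hom_laurent (q : ℕ) [Fact q.Prime] (m : ℕ) :
    Nonempty (Rat (ZMod q) →+* LaurentSeries (GaloisField q m)) := by
  obtain ⟨y, hy⟩ := exists_indep_power (GaloisField q m)
  have h1 := algebraicIndependent_iff_injective_aeval.1
    (hy.restrictScalars (R := ZMod q) (K := GaloisField q m)
      (algebraMap (ZMod q) (GaloisField q m)).injective)
  let κ : PowerSeries (GaloisField q m) →+* LaurentSeries (GaloisField q m) :=
    algebraMap (PowerSeries (GaloisField q m)) (LaurentSeries (GaloisField q m))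
  have hκ : Function.Injective κ := IsFractionRing.injective _ _
  have h2 : Function.Injective (κ.comp (MvPolynomial.aeval y :
      MvPolynomial ℕ (ZMod q) →ₐ[ZMod q] PowerSeries (GaloisField q m)).toRingHom) := hκ.comp h1
  exact ⟨IsFractionRing.lift (A := MvPolynomial ℕ (ZMod q)) (K := Rat (ZMod q)) h2⟩

variable {T : FieldCohomology}

theorem zero_of_laurent (hT : IsMotivic T) (q : ℕ) [Fact q.Prime] (D : Set ℕ)
    (hD : ∀ a : ℕ, a ≠ 0 → ∃ m ∈ D, m ≠ 0 ∧ a ∣ m) {i n : ℤ} (hi : i ≤ 0)
    (h : ∀ m ∈ D, m ≠ 0 → Zero T (LaurentSeries (GaloisField q m)) i n)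
    (F : Type) [Field F] [CharP F q] : Zero T F i n := by
  let _ := ZMod.algebra F q
  refine zero_of_fg (F := ZMod q) hT fun S => ?_
  have h1 : Algebra.EssFiniteType (ZMod q) (adjoin (ZMod q) (S : Set F)) :=
    essFiniteType_iff.2 (fg_adjoin_of_finite S.finite_toSet)
  obtain ⟨m₀, hm₀, H⟩ := laurent_embedding q (adjoin (ZMod q) (S : Set F))
  obtain ⟨m, hm, hm0, hd⟩ := hD m₀ hm₀
  obtain ⟨φ⟩ := H m hm0 hd
  exact (h m hm hm0).of_hom hT hi φ

end Pool.Agent.R412.UF
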