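import Pool.Agent.R412.UF.Cassels
import Pool.Agent.R412.UF.Emb
set_option autoImplicit false

/-!
# Sets of primes modulo which all polynomials have roots
-/

namespace Pool.Agent.R412.UF

open Filter Polynomial IntermediateField Pool.Agent.R388.BS

theorem manyRoots_aux (f : ℤ[X]) (hd : 0 < f.natDegree) (B : ℕ) :
    ∃ p : ℕ, B < p ∧ p.Prime ∧ ∃ r : ZMod p, aeval r f = 0 := by
  obtain ⟨q, hq, hqB, hr⟩ := Pool.Agent.H637R2.Leo.exists_prime_root f hd B.factorial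
    (Nat.factorial_ne_zero B)
  refine ⟨q, ?_, hq, hr⟩
  by_contra hcon
  exact hqB (Nat.dvd_factorial hq.pos (not_lt.1 hcon))

/-- if infinitely many `p ∈ P` are primes modulo which `f` has a root, then one of them embeds a
given finitely generated field -/
theorem exists_padic_hom (P : Set ℕ)
    (hP : ∀ f : ℤ[X], f.Monic → 0 < f.natDegree →
      {p | p ∈ P ∧ p.Prime ∧ ∃ r : ZMod p, aeval r f = 0}.Infinite)
    (F : Type) [Field F] [Algebra ℚ F] [Algebra.EssFiniteType ℚ F] :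
    ∃ (p : ℕ) (_ : Fact p.Prime), p ∈ P ∧ Nonempty (F →+* ℚ_[p]) := by
  obtain ⟨g, hg1, hg2, N, hN, H⟩ := padic_embedding F
  obtain ⟨p, ⟨hp1, hp2, hr⟩, hlt⟩ := (hP g hg1 hg2).exists_gt N
  have : Fact p.Prime := ⟨hp2⟩
  exact ⟨p, this, hp1, H p (fun hd => absurd (Nat.le_of_dvd (Nat.pos_of_ne_zero hN) hd)
    (not_le.2 hlt)) hr⟩

variable {T : FieldCohomology}

theorem zero_of_padics (hT : IsMotivic T) (P : Set ℕ)
    (hP : ∀ f : ℤ[X], f.Monic → 0 < f.natDegree →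
      {p | p ∈ P ∧ p.Prime ∧ ∃ r : ZMod p, aeval r f = 0}.Infinite) {i n : ℤ} (hi : i ≤ 0)
    (h : ∀ (p : ℕ) [Fact p.Prime], p ∈ P → Zero T ℚ_[p] i n) (F : Type) [Field F] [CharZero F] :
    Zero T F i n := by
  refine zero_of_fg (F := ℚ) hT fun S => ?_
  have h1 : Algebra.EssFiniteType ℚ (adjoin ℚ (S : Set F)) :=
    essFiniteType_iff.2 (fg_adjoin_of_finite S.finite_toSet)
  obtain ⟨p, _, hp, ⟨φ⟩⟩ := exists_padic_hom P hP (adjoin ℚ (S : Set F))
  exact (h p hp).of_hom hT hi φ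

theorem exists_rat_hom_padic (p : ℕ) [Fact p.Prime] : Nonempty (Rat ℚ →+* ℚ_[p]) := by
  have := uncountable_padic p
  obtain ⟨y, hy⟩ := exists_indep_nat ℚ_[p]
  exact ⟨IsFractionRing.lift (A := MvPolynomial ℕ ℚ) (K := Rat ℚ)
    (algebraicIndependent_iff_injective_aeval.2 hy)⟩

end Pool.Agent.R412.UF
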