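import Pool.Agent.R412.UF.Emb
set_option autoImplicit false

/-!
# Ultraproducts of arbitrary finite fields of characteristic `q`
-/

namespace Pool.Agent.R412.UF

open Filter Pool.Agent.R388.BS

theorem exists_point {R : Type} [Field R] [Fintype R] {n : ℕ} (P : MvPolynomial (Fin n) R)
    (hP : P ≠ 0) (h : P.totalDegree < Fintype.card R) : ∃ v, MvPolynomial.eval v P ≠ 0 := by
  classical
  by_contra hcon
  push Not at hcon
  have h1 := MvPolynomial.schwartz_zippel_totalDegree hP (Finset.univ : Finset R)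
  have h2 : (Fintype.piFinset fun _ : Fin n => (Finset.univ : Finset R)).filter
      (fun f => MvPolynomial.eval f P = 0) = Finset.univ := by
    rw [Finset.filter_true_of_mem (fun f _ => hcon f)]
    ext f
    simp
  rw [h2] at h1
  have hc : (0 : ℚ≥0) < (Fintype.card R : ℚ≥0) := by exact_mod_cast Fintype.card_pos
  have h3 : ((Finset.univ : Finset (Fin n → R)).card : ℚ≥0) = (Fintype.card R : ℚ≥0) ^ n := by
    rw [Finset.card_univ, Fintype.card_fun, Fintype.card_fin]
    push_cast
    rfl
  rw [h3, Finset.card_univ, div_self (pow_pos hc n).ne', le_div_iff₀ hc, one_mul] at h1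
  have h4 : Fintype.card R ≤ P.totalDegree := by exact_mod_cast h1
  omega

theorem exists_point_p (q : ℕ) [Fact q.Prime] (g : MvPolynomial ℕ (ZMod q)) (hg : g ≠ 0) :
    ∃ m₀ : ℕ, ∀ m : ℕ, m₀ < m → ∃ v : ℕ → GaloisField q m, MvPolynomial.aeval v g ≠ 0 := by
  classical
  obtain ⟨n, f, hf, g', rfl⟩ := MvPolynomial.exists_fin_rename g
  have hg' : g' ≠ 0 := by
    rintro rfl
    exact hg (map_zero _)
  refine ⟨g'.totalDegree, fun m hm => ?_⟩
  have hm0 : m ≠ 0 := by omega
  let _ : Fintype (GaloisField q m) := Fintype.ofFinite _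
  have hcard : Fintype.card (GaloisField q m) = q ^ m := by
    rw [← Nat.card_eq_fintype_card]
    exact GaloisField.card q m hm0
  have hq : 1 < q := (Fact.out : q.Prime).one_lt
  obtain ⟨w, hw⟩ := exists_point (MvPolynomial.map (algebraMap (ZMod q) (GaloisField q m)) g')
    (by
      intro h
      apply hg'
      exact MvPolynomial.map_injective _ (algebraMap (ZMod q) (GaloisField q m)).injective
        (by rw [h, map_zero]))
    (by
      rw [hcard]
      refine lt_of_le_of_lt ?_ (lt_trans hm (Nat.lt_pow_self hq))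
      unfold MvPolynomial.totalDegree
      exact Finset.sup_mono (MvPolynomial.support_map_subset _ _))
  refine ⟨Function.extend f w 0, ?_⟩
  rw [MvPolynomial.aeval_rename, Function.extend_comp hf, MvPolynomial.aeval_def,
    ← MvPolynomial.eval_map]
  exact hw

/-- Finitely generated subrings of `𝔽_q(t_0, t_1, ...)` have homomorphisms to all the sufficiently
large finite fields of characteristic `q`. -/
theorem spec_rat_p (q : ℕ) [Fact q.Prime] (S : Finset (Rat (ZMod q))) :
    ∃ m₀ : ℕ, ∀ m : ℕ, m₀ < m →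
      Nonempty (Subring.closure (S : Set (Rat (ZMod q))) →+* GaloisField q m) := by
  classical
  have h1 : ∀ x : Rat (ZMod q), ∃ a b : MvPolynomial ℕ (ZMod q),
      b ≠ 0 ∧ x * algebraMap _ (Rat (ZMod q)) b = algebraMap _ (Rat (ZMod q)) a := by
    intro x
    obtain ⟨f, g, hg, hx⟩ := IsFractionRing.div_surjective (A := MvPolynomial ℕ (ZMod q)) x
    have hg0 : g ≠ 0 := nonZeroDivisors.ne_zero hg
    refine ⟨f, g, hg0, ?_⟩
    rw [← hx, div_mul_cancel₀]
    intro h
    exact hg0 (IsFractionRing.injective (MvPolynomial ℕ (ZMod q)) (Rat (ZMod q))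
      (by rw [h, map_zero]))
  choose a b hb0 hab using h1
  have hB : ∏ x ∈ S, b x ≠ 0 := Finset.prod_ne_zero_iff.2 fun x _ => hb0 x
  obtain ⟨m₀, hm₀⟩ := exists_point_p q _ hB
  refine ⟨m₀, fun m hm => ?_⟩
  obtain ⟨v, hv⟩ := hm₀ m hm
  refine ext_closure (algebraMap (MvPolynomial ℕ (ZMod q)) (Rat (ZMod q)))
    (IsFractionRing.injective _ _) (MvPolynomial.aeval v).toRingHom _ (Subring.subtype _) ?_
  intro x hx
  refine ⟨a x, b x, ?_, hab x⟩
  intro h
  apply hv
  rw [map_prod]
  exact Finset.prod_eq_zero hx h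

/-- `𝔽_q(t_0, t_1, ...)` embeds in each ultraproduct of distinct finite fields of characteristic
`q` -/
theorem exists_rat_hom_p (q : ℕ) [Fact q.Prime] (d : ℕ → ℕ) (hd : Function.Injective d)
    (U : Ultrafilter ℕ) (hU : (U : Filter ℕ) ≤ atTop) :
    Nonempty (Rat (ZMod q) →+* UProd (fun m => GaloisField q (d m)) U) := by
  have := countable_rat (ZMod q)
  refine embed _ U hU fun S => ?_
  obtain ⟨m₀, h⟩ := spec_rat_p q S
  filter_upwards [hd.nat_tendsto_atTop.eventually_gt_atTop m₀] with m hm
  exact h (d m) hm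

end Pool.Agent.R412.UF
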