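import Pool.Agent.R412.UF.Many
import Pool.Agent.R936.BSC.Main
set_option autoImplicit false

/-!
# Vanishing for complex varieties from pseudofinite and `p`-adic fields
-/

namespace Pool.Agent.R412.UF

open Filter Polynomial IntermediateField Pool.Agent.R388.BS Pool.Agent.R936.BSC

variable {T : FieldCohomology} {V : VarietyCohomology} {𝒮 : Set CSch}

theorem ultra_iff (hT : IsMotivic T) (p : ℕ → ℕ) [∀ m, Fact (p m).Prime]
    (hp : Function.Injective p) (hr : HasRoots p) (U : Ultrafilter ℕ)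
    (hU : (U : Filter ℕ) ≤ atTop) {i n : ℤ} (hi : i ≤ 0) :
    Zero T (UProd (fun m => ZMod (p m)) U) i n ↔
      ∀ (F : Type) [Field F] [CharZero F], Zero T F i n := by
  constructor
  · intro h F _ _
    have i1 := countable_rat ℚ
    have i2 : Countable (AlgebraicClosure (Rat ℚ)) := countable_closure _
    have i3 : CharZero (AlgebraicClosure (Rat ℚ)) :=
      charZero_of_injective_algebraMap
        (algebraMap ℚ (AlgebraicClosure (Rat ℚ))).injective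
    obtain ⟨f⟩ := exists_hom_zero p hp hr U hU (AlgebraicClosure (Rat ℚ))
    exact zero_of_closed (k := ℚ) hT hi (algebraMap (Rat ℚ) (AlgebraicClosure (Rat ℚ)))
      (h.of_hom hT hi f)
  · intro h
    have i1 := charZero_primes p hp U hU
    exact h _

theorem padic_iff (hT : IsMotivic T) (P : Set ℕ)
    (hP : ∀ f : ℤ[X], f.Monic → 0 < f.natDegree →
      {p | p ∈ P ∧ p.Prime ∧ ∃ r : ZMod p, aeval r f = 0}.Infinite) {i n : ℤ} (hi : i ≤ 0) :
    (∀ (p : ℕ) [Fact p.Prime], p ∈ P → Zero T ℚ_[p] i n) ↔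
      ∀ (F : Type) [Field F] [CharZero F], Zero T F i n :=
  ⟨fun h F _ _ => zero_of_padics hT P hP hi h F, fun h p _ _ => h ℚ_[p]⟩

theorem complex_iff (hT : IsMotivic T) {i n : ℤ} (hi : i ≤ 0) :
    Zero T ℂ i n ↔ ∀ (F : Type) [Field F] [CharZero F], Zero T F i n := by
  obtain ⟨g⟩ := exists_ratHom_complex
  exact ⟨fun h F _ _ => zero_of_closed (k := ℚ) hT hi g h, fun h => h ℂ⟩

theorem weight_tfae (hT : IsMotivic T) (hV : IsComputedByPoints T V 𝒮) (p : ℕ → ℕ)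
    [∀ m, Fact (p m).Prime] (hp : Function.Injective p) (hr : HasRoots p) (U : Ultrafilter ℕ)
    (hU : (U : Filter ℕ) ≤ atTop) (P : Set ℕ)
    (hP : ∀ f : ℤ[X], f.Monic → 0 < f.natDegree →
      {p | p ∈ P ∧ p.Prime ∧ ∃ r : ZMod p, aeval r f = 0}.Infinite) {m n : ℤ} (hm : m < 0)
    (hn : 0 < n) :
    List.TFAE [VarietiesVanish V 𝒮 m n, FieldVanishes T (UProd (fun j => ZMod (p j)) U) m n,
      ∀ (q : ℕ) [Fact q.Prime], q ∈ P → FieldVanishes T ℚ_[q] m n] := by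
  have h0 : VarietiesVanish V 𝒮 m n ↔
      ∀ (F : Type) [Field F] [CharZero F], FieldVanishes T F m n :=
    (tfae_weight hT hV hm hn).out 0 2
  have h1 : FieldVanishes T (UProd (fun j => ZMod (p j)) U) m n ↔
      ∀ (F : Type) [Field F] [CharZero F], FieldVanishes T F m n :=
    ⟨fun h F _ _ k hk => (ultra_iff hT p hp hr U hU (by omega)).1 (h k hk) F,
      fun h k hk => (ultra_iff hT p hp hr U hU (by omega)).2 fun F _ _ => h F k hk⟩
  have h2 : (∀ (q : ℕ) [Fact q.Prime], q ∈ P → FieldVanishes T ℚ_[q] m n) ↔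
      ∀ (F : Type) [Field F] [CharZero F], FieldVanishes T F m n :=
    ⟨fun h F _ _ k hk => (padic_iff hT P hP (by omega)).1 (fun q _ hq => h q hq k hk) F,
      fun h q _ _ => h ℚ_[q]⟩
  tfae_have 1 ↔ 2 := h0.trans h1.symm
  tfae_have 1 ↔ 3 := h0.trans h2.symm
  tfae_finish

theorem all_tfae (hT : IsMotivic T) (hV : IsComputedByPoints T V 𝒮) (p : ℕ → ℕ)
    [∀ m, Fact (p m).Prime] (hp : Function.Injective p) (hr : HasRoots p) (U : Ultrafilter ℕ)
    (hU : (U : Filter ℕ) ≤ atTop) (P : Set ℕ)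
    (hP : ∀ f : ℤ[X], f.Monic → 0 < f.natDegree →
      {p | p ∈ P ∧ p.Prime ∧ ∃ r : ZMod p, aeval r f = 0}.Infinite) :
    List.TFAE [∀ n > 0, VarietiesVanish V 𝒮 (-1) n,
      ∀ n > 0, Zero T (UProd (fun j => ZMod (p j)) U) (-1) n,
      ∀ n > 0, ∀ (q : ℕ) [Fact q.Prime], q ∈ P → Zero T ℚ_[q] (-1) n] := by
  have h0 : (∀ n > 0, VarietiesVanish V 𝒮 (-1) n) ↔ ∀ n > 0, Zero T ℂ (-1) n :=
    (tfae_all hT hV).out 0 2
  have h0' : (∀ n > 0, VarietiesVanish V 𝒮 (-1) n) ↔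
      ∀ n > 0, ∀ (F : Type) [Field F] [CharZero F], Zero T F (-1) n :=
    h0.trans (forall₂_congr fun n _ => complex_iff hT (by omega))
  have h1 : (∀ n > 0, Zero T (UProd (fun j => ZMod (p j)) U) (-1) n) ↔
      ∀ n > 0, ∀ (F : Type) [Field F] [CharZero F], Zero T F (-1) n :=
    forall₂_congr fun n _ => ultra_iff hT p hp hr U hU (by omega)
  have h2 : (∀ n > 0, ∀ (q : ℕ) [Fact q.Prime], q ∈ P → Zero T ℚ_[q] (-1) n) ↔
      ∀ n > 0, ∀ (F : Type) [Field F] [CharZero F], Zero T F (-1) n :=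
    forall₂_congr fun n _ => padic_iff hT P hP (by omega)
  tfae_have 1 ↔ 2 := h0'.trans h1.symm
  tfae_have 1 ↔ 3 := h0'.trans h2.symm
  tfae_finish

theorem of_one_padic (hT : IsMotivic T) (hV : IsComputedByPoints T V 𝒮) (q : ℕ) [Fact q.Prime]
    (h : ∀ n > 1, Zero T ℚ_[q] 0 n) : ∀ n > 0, VarietiesVanish V 𝒮 (-1) n := by
  have h0 : (∀ n > 0, VarietiesVanish V 𝒮 (-1) n) ↔ ∀ n > 1, Zero T (Rat ℚ) 0 n :=
    (tfae_all hT hV).out 0 3
  obtain ⟨f⟩ := exists_rat_hom_padic q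
  exact h0.2 fun n hn => (h n hn).of_hom hT le_rfl f

theorem of_one_ultra (hT : IsMotivic T) (hV : IsComputedByPoints T V 𝒮) (p : ℕ → ℕ)
    [∀ m, Fact (p m).Prime] (hp : Function.Injective p) (U : Ultrafilter ℕ)
    (hU : (U : Filter ℕ) ≤ atTop) (h : ∀ n > 1, Zero T (UProd (fun j => ZMod (p j)) U) 0 n) :
    ∀ n > 0, VarietiesVanish V 𝒮 (-1) n := by
  have h0 : (∀ n > 0, VarietiesVanish V 𝒮 (-1) n) ↔ ∀ n > 1, Zero T (Rat ℚ) 0 n :=
    (tfae_all hT hV).out 0 3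
  obtain ⟨f⟩ := exists_rat_hom p hp U hU
  exact h0.2 fun n hn => (h n hn).of_hom hT le_rfl f

end Pool.Agent.R412.UF
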